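import Mathlib

/-!
# Closed configurations in a finite projective plane: counting and Bruck's bound
-/

set_option autoImplicit false
set_option linter.unusedSectionVars false

namespace Pool.Agent.U113.TH

open Configuration Configuration.ProjectivePlane Finset
open scoped Classical

variable {P L : Type*} [Membership P L] [ProjectivePlane P L]

lemma nonempty_P (P L : Type*) [Membership P L] [ProjectivePlane P L] : Nonempty P := by
  obtain ⟨p, _⟩ := ProjectivePlane.exists_config (P := P) (L := L)
  exact ⟨p⟩

lemma nonempty_L (P L : Type*) [Membership P L] [ProjectivePlane P L] : Nonempty L := by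
  obtain ⟨_, _, _, l, _⟩ := ProjectivePlane.exists_config (P := P) (L := L)
  exact ⟨l⟩

variable (P) in
/-- The intersection point of two lines. -/
noncomputable def meet (l m : L) : P :=
  if h : l = m then Classical.choice (nonempty_P P L) else HasPoints.mkPoint h

variable (L) in
/-- The line joining two points. -/
noncomputable def join (p q : P) : L :=
  if h : p = q then Classical.choice (nonempty_L P L) else HasLines.mkLine h

lemma meet_mem_left {l m : L} (h : l ≠ m) : meet P l m ∈ l := by
  rw [meet, dif_neg h]; exact (HasPoints.mkPoint_ax h).1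

lemma meet_mem_right {l m : L} (h : l ≠ m) : meet P l m ∈ m := by
  rw [meet, dif_neg h]; exact (HasPoints.mkPoint_ax h).2

lemma join_mem_left {p q : P} (h : p ≠ q) : p ∈ join L p q := by
  rw [join, dif_neg h]; exact (HasLines.mkLine_ax h).1

lemma join_mem_right {p q : P} (h : p ≠ q) : q ∈ join L p q := by
  rw [join, dif_neg h]; exact (HasLines.mkLine_ax h).2

lemma line_eq {p q : P} {l m : L} (h : p ≠ q) (h1 : p ∈ l) (h2 : q ∈ l) (h3 : p ∈ m) (h4 : q ∈ m) :
    l = m := (Nondegenerate.eq_or_eq h1 h2 h3 h4).resolve_left h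

lemma point_eq {p q : P} {l m : L} (h : l ≠ m) (h1 : p ∈ l) (h2 : q ∈ l) (h3 : p ∈ m) (h4 : q ∈ m) :
    p = q := (Nondegenerate.eq_or_eq h1 h2 h3 h4).resolve_right h

/-- A set of points and lines closed under joining and intersecting. -/
structure Closed (X : Finset P) (F : Finset L) : Prop where
  c1 : ∀ x ∈ X, ∀ y ∈ X, x ≠ y → ∀ l : L, x ∈ l → y ∈ l → l ∈ F
  c2 : ∀ l ∈ F, ∀ m ∈ F, l ≠ m → ∀ x : P, x ∈ l → x ∈ m → x ∈ X

variable {X : Finset P} {F : Finset L}

/-- number of lines of `F` through `x` -/
noncomputable def aa (F : Finset L) (x : P) : ℕ := (F.filter (fun l => x ∈ l)).card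

/-- number of points of `X` on `l` -/
noncomputable def bb (X : Finset P) (l : L) : ℕ := (X.filter (fun x => x ∈ l)).card

lemma Closed.aa_eq_bb (h : Closed X F) {x : P} {l : L} (hx : x ∈ X) (hl : l ∈ F) (hxl : x ∉ l) :
    aa F x = bb X l := by
  unfold aa bb
  refine Finset.card_nbij' (fun m => meet P m l) (fun p => join L x p) ?_ ?_ ?_ ?_
  · intro m hm
    simp only [Finset.coe_filter, Set.mem_ofPred_eq] at hm ⊢
    have hne : m ≠ l := by rintro rfl; exact hxl hm.2
    exact ⟨h.c2 m hm.1 l hl hne _ (meet_mem_left hne) (meet_mem_right hne), meet_mem_right hne⟩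
  · intro p hp
    simp only [Finset.coe_filter, Set.mem_ofPred_eq] at hp ⊢
    have hne : x ≠ p := by rintro rfl; exact hxl hp.2
    exact ⟨h.c1 x hx p hp.1 hne _ (join_mem_left hne) (join_mem_right hne), join_mem_left hne⟩
  · intro m hm
    simp only [Finset.coe_filter, Set.mem_ofPred_eq] at hm
    have hne : m ≠ l := by rintro rfl; exact hxl hm.2
    have hne2 : x ≠ meet P m l := by
      intro e; apply hxl; rw [e]; exact meet_mem_right hne
    exact line_eq hne2 (join_mem_left hne2) (join_mem_right hne2) hm.2 (meet_mem_left hne)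
  · intro p hp
    simp only [Finset.coe_filter, Set.mem_ofPred_eq] at hp
    have hne : x ≠ p := by rintro rfl; exact hxl hp.2
    have hne2 : join L x p ≠ l := by
      intro e; apply hxl; rw [← e]; exact join_mem_left hne
    exact point_eq hne2 (meet_mem_left hne2) (join_mem_right hne) (meet_mem_right hne2) hp.2

lemma Closed.card_points (h : Closed X F) {d : ℕ} (hb : ∀ l ∈ F, bb X l = d)
    {x : P} (hx : x ∈ X) (ha : aa F x = d) : X.card = 1 + d * (d - 1) := by
  have h1 : (X.erase x).card = ∑ m ∈ F.filter (fun l => x ∈ l),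
      ((X.erase x).filter (fun p => join L x p = m)).card := by
    apply Finset.card_eq_sum_card_fiberwise
    intro p hp
    simp only [Finset.coe_erase, Set.mem_sdiff, Finset.mem_coe, Set.mem_singleton_iff] at hp
    simp only [Finset.coe_filter, Set.mem_ofPred_eq]
    have hne : x ≠ p := fun e => hp.2 e.symm
    exact ⟨h.c1 x hx p hp.1 hne _ (join_mem_left hne) (join_mem_right hne), join_mem_left hne⟩
  have h2 : ∀ m ∈ F.filter (fun l => x ∈ l),
      ((X.erase x).filter (fun p => join L x p = m)).card = d - 1 := by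
    intro m hm
    rw [Finset.mem_filter] at hm
    have : (X.erase x).filter (fun p => join L x p = m) = (X.filter (fun p => p ∈ m)).erase x := by
      ext p
      simp only [Finset.mem_filter, Finset.mem_erase]
      constructor
      · rintro ⟨⟨h3, h4⟩, rfl⟩
        exact ⟨h3, h4, join_mem_right (Ne.symm h3)⟩
      · rintro ⟨h3, h4, h5⟩
        exact ⟨⟨h3, h4⟩, line_eq (Ne.symm h3) (join_mem_left (Ne.symm h3))
          (join_mem_right (Ne.symm h3)) hm.2 h5⟩
    rw [this, Finset.card_erase_of_mem (Finset.mem_filter.mpr ⟨hx, hm.2⟩)]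
    have := hb m hm.1
    unfold bb at this
    rw [this]
  rw [Finset.sum_congr rfl h2, Finset.sum_const, smul_eq_mul, Finset.card_erase_of_mem hx] at h1
  unfold aa at ha
  rw [ha] at h1
  have : 0 < X.card := Finset.card_pos.mpr ⟨x, hx⟩
  omega

lemma Closed.card_lines (h : Closed X F) {d : ℕ} (ha : ∀ x ∈ X, aa F x = d)
    {l : L} (hl : l ∈ F) (hb : bb X l = d) : F.card = 1 + d * (d - 1) := by
  have h1 : (F.erase l).card = ∑ m ∈ X.filter (fun x => x ∈ l),
      ((F.erase l).filter (fun p => meet P p l = m)).card := by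
    apply Finset.card_eq_sum_card_fiberwise
    intro p hp
    simp only [Finset.coe_erase, Set.mem_sdiff, Finset.mem_coe, Set.mem_singleton_iff] at hp
    simp only [Finset.coe_filter, Set.mem_ofPred_eq]
    exact ⟨h.c2 p hp.1 l hl hp.2 _ (meet_mem_left hp.2) (meet_mem_right hp.2), meet_mem_right hp.2⟩
  have h2 : ∀ x ∈ X.filter (fun x => x ∈ l),
      ((F.erase l).filter (fun m => meet P m l = x)).card = d - 1 := by
    intro x hx
    rw [Finset.mem_filter] at hx
    have : (F.erase l).filter (fun m => meet P m l = x) = (F.filter (fun m => x ∈ m)).erase l := by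
      ext m
      simp only [Finset.mem_filter, Finset.mem_erase]
      constructor
      · rintro ⟨⟨h3, h4⟩, rfl⟩
        exact ⟨h3, h4, meet_mem_left h3⟩
      · rintro ⟨h3, h4, h5⟩
        exact ⟨⟨h3, h4⟩, point_eq h3 (meet_mem_left h3) h5 (meet_mem_right h3) hx.2⟩
    rw [this, Finset.card_erase_of_mem (Finset.mem_filter.mpr ⟨hl, hx.2⟩)]
    have := ha x hx.1
    unfold aa at this
    rw [this]
  rw [Finset.sum_congr rfl h2, Finset.sum_const, smul_eq_mul, Finset.card_erase_of_mem hl] at h1
  unfold bb at hb
  rw [hb] at h1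
  have : 0 < F.card := Finset.card_pos.mpr ⟨l, hl⟩
  omega

variable [Fintype P] [Fintype L]

lemma card_lines_through (x : P) :
    (Finset.univ.filter (fun l : L => x ∈ l)).card = order P L + 1 := by
  rw [← lineCount_eq (P := P) (L := L) x, lineCount, Nat.card_eq_fintype_card, Fintype.card_subtype]

lemma card_points_on (l : L) :
    (Finset.univ.filter (fun x : P => x ∈ l)).card = order P L + 1 := by
  rw [← pointCount_eq (P := P) (L := L) l, pointCount, Nat.card_eq_fintype_card, Fintype.card_subtype]

/-- Bruck's bound for closed configurations. -/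
lemma Closed.bruck (h : Closed X F) {d : ℕ} (hd1 : 1 ≤ d) (hb : ∀ l ∈ F, bb X l = d)
    (ha : ∀ x ∈ X, aa F x = d) {x0 : P} (hx0 : x0 ∈ X) {l : L} (hl : l ∈ F) {y : P} (hyl : y ∈ l)
    (hyX : y ∉ X) :
    (d - 1) ^ 2 ≤ order P L ∧ ((d - 1) ^ 2 = order P L ∨ 1 + d * (d - 1) ≤ order P L + 1) := by
  have hXc := h.card_points hb hx0 (ha x0 hx0)
  have hFc := h.card_lines ha hl (hb l hl)
  -- lines of F through y: only l
  have honly : ∀ m ∈ F, y ∈ m → m = l := by
    intro m hm hym
    by_contra hne
    exact hyX (h.c2 m hm l hl hne y hym hyl)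
  -- the points of X off l
  set A := X.filter (fun x => x ∉ l) with hA
  have hAc : A.card + d = X.card := by
    have h1 : (X.filter (fun x => x ∈ l)).card + A.card = X.card := by
      rw [hA]; convert Finset.card_filter_add_card_filter_not (s := X) (fun x => x ∈ l)
    have hbl := hb l hl
    unfold bb at hbl
    omega
  have hA2 : A.card = (d - 1) ^ 2 := by
    obtain ⟨e, rfl⟩ : ∃ e, d = e + 1 := ⟨d - 1, by omega⟩
    simp only [Nat.add_sub_cancel] at *
    nlinarith
  set B := (Finset.univ.filter (fun m : L => y ∈ m)).erase l with hB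
  have hBc : B.card = order P L := by
    rw [hB, Finset.card_erase_of_mem (by simpa using hyl), card_lines_through]
    rfl
  have hmaps : ∀ x ∈ A, join L y x ∈ B := by
    intro x hx
    rw [hA, Finset.mem_filter] at hx
    have hne : y ≠ x := by rintro rfl; exact hx.2 hyl
    rw [hB, Finset.mem_erase, Finset.mem_filter]
    refine ⟨?_, Finset.mem_univ _, join_mem_left hne⟩
    intro e; apply hx.2; rw [← e]; exact join_mem_right hne
  have hinj : Set.InjOn (fun x => join L y x) (A : Set P) := by
    intro x hx x' hx' e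
    simp only at e
    rw [Finset.mem_coe, hA, Finset.mem_filter] at hx hx'
    by_contra hne
    have hne1 : y ≠ x := by rintro rfl; exact hx.2 hyl
    have hne2 : y ≠ x' := by rintro rfl; exact hx'.2 hyl
    have h1 : x ∈ join L y x := join_mem_right hne1
    have h2 : x' ∈ join L y x := by rw [e]; exact join_mem_right hne2
    have h3 := h.c1 x hx.1 x' hx'.1 hne _ h1 h2
    have h4 := honly _ h3 (join_mem_left hne1)
    exact hx.2 (h4 ▸ h1)
  have hle : (d - 1) ^ 2 ≤ order P L := by
    rw [← hA2, ← hBc]
    exact Finset.card_le_card_of_injOn _ hmaps hinj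
  refine ⟨hle, ?_⟩
  by_cases heq : (d - 1) ^ 2 = order P L
  · exact Or.inl heq
  · right
    -- a line through y missing X
    have hlt : (A.image (fun x => join L y x)).card < B.card := by
      rw [Finset.card_image_of_injOn hinj, hA2, hBc]; omega
    obtain ⟨m, hmB, hmA⟩ := Finset.exists_mem_notMem_of_card_lt_card hlt
    rw [hB, Finset.mem_erase, Finset.mem_filter] at hmB
    have hmX : ∀ x ∈ X, x ∉ m := by
      intro x hx hxm
      have hne : y ≠ x := by rintro rfl; exact hyX hx
      have hxl : x ∉ l := by
        intro hxl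
        exact hmB.1 (line_eq hne hmB.2.2 hxm hyl hxl)
      apply hmA
      rw [Finset.mem_image]
      refine ⟨x, by rw [hA, Finset.mem_filter]; exact ⟨hx, hxl⟩, ?_⟩
      exact line_eq hne (join_mem_left hne) (join_mem_right hne) hmB.2.2 hxm
    have hmF : ∀ f ∈ F, f ≠ m := by
      rintro f hf rfl
      exact hmB.1 (honly f hf hmB.2.2)
    rw [← hFc, ← card_points_on (P := P) m]
    apply Finset.card_le_card_of_injOn (fun f => meet P f m)
    · intro f hf
      rw [Finset.mem_coe] at hf
      simp only [Finset.coe_filter, Set.mem_ofPred_eq, Finset.mem_univ, true_and]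
      exact meet_mem_right (hmF f hf)
    · intro f hf f' hf' e
      rw [Finset.mem_coe] at hf hf'
      simp only at e
      by_contra hne
      have h1 : meet P f m ∈ f := meet_mem_left (hmF f hf)
      have h2 : meet P f m ∈ f' := by rw [e]; exact meet_mem_left (hmF f' hf')
      exact hmX _ (h.c2 f hf f' hf' hne _ h1 h2) (meet_mem_right (hmF f hf))

end Pool.Agent.U113.TH
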