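import Mathlib
import Pool.Agent.U113.TH.Fix

/-!
# Quasiregular groups: fixed configurations of normal subgroups
-/

set_option autoImplicit false
set_option linter.unusedSectionVars false

namespace Pool.Agent.U113.TH

open Configuration Configuration.ProjectivePlane Finset
open scoped Classical

variable {P L : Type*} [Membership P L] [ProjectivePlane P L] [Fintype P] [Fintype L]
variable {G : Type*} [Group G] [MulAction G P] [MulAction G L]

/-- A quasiregular group without fixed points or lines. -/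
structure QR (P L G : Type*) [Membership P L] [Group G] [MulAction G P] [MulAction G L] : Prop where
  inc : ∀ (g : G) (p : P) (l : L), p ∈ l ↔ g • p ∈ g • l
  qr : ∀ (g : G) (p q : P), q ∈ MulAction.orbit G p → g • p = p → g • q = q
  nofixP : ¬ ∃ p : P, ∀ g : G, g • p = p
  nofixL : ¬ ∃ l : L, ∀ g : G, g • l = l
  faithful : ∀ g : G, (∀ p : P, g • p = p) → g = 1

variable (P) in
/-- fixed points -/
noncomputable def fixP (N : Subgroup G) : Finset P := Finset.univ.filter (fun p => ∀ g ∈ N, g • p = p)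

variable (L) in
/-- fixed lines -/
noncomputable def fixL (N : Subgroup G) : Finset L := Finset.univ.filter (fun p => ∀ g ∈ N, g • p = p)

lemma mem_fixP {N : Subgroup G} {p : P} : p ∈ fixP P N ↔ ∀ g ∈ N, g • p = p := by simp [fixP]
lemma mem_fixL {N : Subgroup G} {l : L} : l ∈ fixL L N ↔ ∀ g ∈ N, g • l = l := by simp [fixL]

lemma QR.closed (h : QR P L G) (N : Subgroup G) : Closed (fixP P N) (fixL L N) := by
  constructor
  · intro x hx y hy hne l hxl hyl
    rw [mem_fixP] at hx hy
    rw [mem_fixL]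
    intro g hg
    have h1 := (h.inc g x l).mp hxl
    have h2 := (h.inc g y l).mp hyl
    rw [hx g hg] at h1
    rw [hy g hg] at h2
    exact line_eq hne h1 h2 hxl hyl
  · intro l hl m hm hne x hxl hxm
    rw [mem_fixL] at hl hm
    rw [mem_fixP]
    intro g hg
    have h1 := (h.inc g x l).mp hxl
    have h2 := (h.inc g x m).mp hxm
    rw [hl g hg] at h1
    rw [hm g hg] at h2
    exact point_eq hne h1 hxl h2 hxm

lemma smul_mem_fixP {N : Subgroup G} [hN : N.Normal] {p : P} (g : G) (hp : p ∈ fixP P N) :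
    g • p ∈ fixP P N := by
  rw [mem_fixP] at hp ⊢
  intro a ha
  have h1 : g⁻¹ * a * g ∈ N := by
    have := hN.conj_mem a ha g⁻¹
    rwa [inv_inv] at this
  have h2 := hp _ h1
  rw [mul_smul, mul_smul, inv_smul_eq_iff] at h2
  exact h2

lemma smul_mem_fixL {N : Subgroup G} [hN : N.Normal] {p : L} (g : G) (hp : p ∈ fixL L N) :
    g • p ∈ fixL L N := by
  rw [mem_fixL] at hp ⊢
  intro a ha
  have h1 : g⁻¹ * a * g ∈ N := by
    have := hN.conj_mem a ha g⁻¹
    rwa [inv_inv] at this
  have h2 := hp _ h1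
  rw [mul_smul, mul_smul, inv_smul_eq_iff] at h2
  exact h2

lemma QR.aa_smul (h : QR P L G) (N : Subgroup G) [hN : N.Normal] (g : G) (x : P) :
    aa (fixL L N) (g • x) = aa (fixL L N) x := by
  unfold aa
  symm
  refine Finset.card_nbij' (fun l => g • l) (fun l => g⁻¹ • l) ?_ ?_ ?_ ?_
  · intro l hl
    simp only [Finset.coe_filter, Set.mem_ofPred_eq] at hl ⊢
    exact ⟨smul_mem_fixL g hl.1, (h.inc g x l).mp hl.2⟩
  · intro l hl
    simp only [Finset.coe_filter, Set.mem_ofPred_eq] at hl ⊢
    refine ⟨smul_mem_fixL g⁻¹ hl.1, ?_⟩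
    rw [h.inc g]; simpa using hl.2
  · intro l _; simp
  · intro l _; simp

/-- No orbit is contained in a line. -/
lemma QR.not_collinear (h : QR P L G) (x : P) (l : L) : ∃ g : G, g • x ∉ l := by
  by_contra hcon
  push Not at hcon
  have h1 : ∃ g : G, g • x ≠ x := by
    by_contra hc; push Not at hc; exact h.nofixP ⟨x, hc⟩
  obtain ⟨g, hg⟩ := h1
  apply h.nofixL
  refine ⟨l, fun a => ?_⟩
  have hx1 : x ∈ l := by simpa using hcon 1
  have h2 : x ∈ a • l := by
    have := (h.inc a (a⁻¹ • x) l).mp (hcon a⁻¹)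
    simpa using this
  have h3 : g • x ∈ a • l := by
    have := (h.inc a ((a⁻¹ * g) • x) l).mp (hcon (a⁻¹ * g))
    rwa [mul_smul, smul_inv_smul] at this
  exact line_eq (Ne.symm hg) h2 h3 hx1 (hcon g)

/-- The fixed configuration of a nontrivial normal subgroup fixing a point. -/
theorem QR.lemmaF (h : QR P L G) (N : Subgroup G) [hN : N.Normal] (hN1 : N ≠ ⊥) {x0 : P}
    (hx0 : x0 ∈ fixP P N) :
    ∃ d, 2 ≤ d ∧ (∀ l ∈ fixL L N, bb (fixP P N) l = d) ∧ (∀ x ∈ fixP P N, aa (fixL L N) x = d) ∧
      (∃ l, l ∈ fixL L N) ∧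
      (d - 1) ^ 2 ≤ order P L ∧ ((d - 1) ^ 2 = order P L ∨ 1 + d * (d - 1) ≤ order P L + 1) := by
  have hcl := h.closed N
  set X := fixP P N with hX
  set F := fixL L N with hF
  have hb : ∀ l ∈ F, bb X l = aa F x0 := by
    intro l hl
    obtain ⟨g, hg⟩ := h.not_collinear x0 l
    rw [← hcl.aa_eq_bb (smul_mem_fixP g hx0) hl hg, hF, h.aa_smul]
  have h1 : ∃ g : G, g • x0 ≠ x0 := by
    by_contra hc; push Not at hc; exact h.nofixP ⟨x0, hc⟩
  obtain ⟨g1, hg1⟩ := h1
  set x1 := g1 • x0 with hx1
  have hx1X : x1 ∈ X := smul_mem_fixP g1 hx0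
  set l1 : L := join L x0 x1 with hl1
  have h01 : x0 ≠ x1 := Ne.symm hg1
  have hl1F : l1 ∈ F := hcl.c1 x0 hx0 x1 hx1X h01 _ (join_mem_left h01) (join_mem_right h01)
  have hx0l1 : x0 ∈ l1 := join_mem_left h01
  have hx1l1 : x1 ∈ l1 := join_mem_right h01
  obtain ⟨g2, hg2⟩ := h.not_collinear x0 l1
  set x2 := g2 • x0 with hx2
  have hx2X : x2 ∈ X := smul_mem_fixP g2 hx0
  have h02 : x0 ≠ x2 := by intro e; rw [← e] at hg2; exact hg2 hx0l1
  have h12 : x1 ≠ x2 := by intro e; rw [← e] at hg2; exact hg2 hx1l1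
  have ha : ∀ y ∈ X, aa F y = aa F x0 := by
    intro y hy
    have : ∃ l ∈ F, y ∉ l := by
      by_cases hyl : y ∈ l1
      · by_cases hy0 : y = x0
        · refine ⟨join L x1 x2, hcl.c1 x1 hx1X x2 hx2X h12 _ (join_mem_left h12)
            (join_mem_right h12), ?_⟩
          rw [hy0]
          intro hc
          have := line_eq h01 hc (join_mem_left h12) hx0l1 hx1l1
          exact hg2 (this ▸ join_mem_right h12)
        · refine ⟨join L x0 x2, hcl.c1 x0 hx0 x2 hx2X h02 _ (join_mem_left h02)
            (join_mem_right h02), ?_⟩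
          intro hc
          have := line_eq hy0 hc (join_mem_left h02) hyl hx0l1
          exact hg2 (this ▸ join_mem_right h02)
      · exact ⟨l1, hl1F, hyl⟩
    obtain ⟨l, hl, hyl⟩ := this
    rw [hcl.aa_eq_bb hy hl hyl, hb l hl]
  have hd2 : 2 ≤ aa F x0 := by
    rw [← hb l1 hl1F]
    unfold bb
    rw [← Finset.card_pair h01]
    apply Finset.card_le_card
    intro z hz
    rw [Finset.mem_insert, Finset.mem_singleton] at hz
    rw [Finset.mem_filter]
    rcases hz with rfl | rfl
    · exact ⟨hx0, hx0l1⟩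
    · exact ⟨hx1X, hx1l1⟩
  have hexy : ∃ l ∈ F, ∃ y : P, y ∈ l ∧ y ∉ X := by
    by_contra hcon
    push Not at hcon
    -- all points on all lines of F are in X
    have hd : aa F x0 = order P L + 1 := by
      rw [← hb l1 hl1F, ← card_points_on (P := P) l1]
      unfold bb
      congr 1
      ext y
      simp only [Finset.mem_filter, Finset.mem_univ, true_and]
      exact ⟨fun hy => hy.2, fun hy => ⟨hcon l1 hl1F y hy, hy⟩⟩
    have hall : ∀ p : P, p ∈ X := by
      intro p
      by_cases hp : x0 = p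
      · rw [← hp]; exact hx0
      · have hsub : F.filter (fun l => x0 ∈ l) = Finset.univ.filter (fun l : L => x0 ∈ l) := by
          apply Finset.eq_of_subset_of_card_le
          · intro l hl
            rw [Finset.mem_filter] at hl ⊢
            exact ⟨Finset.mem_univ _, hl.2⟩
          · rw [card_lines_through, ← hd]
            rfl
        have : join L x0 p ∈ F.filter (fun l => x0 ∈ l) := by
          rw [hsub, Finset.mem_filter]
          exact ⟨Finset.mem_univ _, join_mem_left hp⟩
        rw [Finset.mem_filter] at this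
        exact hcon _ this.1 p (join_mem_right hp)
    apply hN1
    rw [Subgroup.eq_bot_iff_forall]
    intro g hg
    exact h.faithful g fun p => mem_fixP.mp (hall p) g hg
  obtain ⟨l, hl, y, hyl, hyX⟩ := hexy
  have hbr := hcl.bruck (by omega) hb ha hx0 hl hyl hyX
  exact ⟨aa F x0, hd2, hb, ha, ⟨l1, hl1F⟩, hbr.1, hbr.2⟩

lemma QR.stab_normal (h : QR P L G) (y : P) : (MulAction.stabilizer G y).Normal := by
  constructor
  intro a ha g
  rw [MulAction.mem_stabilizer_iff] at ha ⊢
  have h1 := h.qr a y (g⁻¹ • y) (MulAction.mem_orbit y g⁻¹) ha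
  rw [mul_smul, mul_smul, h1, smul_inv_smul]

/-- The Baer case is impossible. -/
theorem QR.lemmaF' [Finite G] (h : QR P L G) {k : ℕ} (ho : order P L = k ^ 2)
    (hG : Nat.card G = (k ^ 2 - k + 1) ^ 2) (N : Subgroup G) [hN : N.Normal] (hN1 : N ≠ ⊥) {x0 : P}
    (hx0 : x0 ∈ fixP P N) :
    ∃ d, 2 ≤ d ∧ d ≤ k ∧ (∀ l ∈ fixL L N, bb (fixP P N) l = d) ∧
      (∀ x ∈ fixP P N, aa (fixL L N) x = d) ∧
      (fixP P N).card = 1 + d * (d - 1) ∧ (fixL L N).card = 1 + d * (d - 1) := by
  obtain ⟨d, hd2, hb, ha, ⟨l, hl⟩, hsq, hor⟩ := h.lemmaF N hN1 hx0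
  have hcl := h.closed N
  refine ⟨d, hd2, ?_, hb, ha, hcl.card_points hb hx0 (ha x0 hx0), hcl.card_lines ha hl (hb l hl)⟩
  by_contra hdk
  push Not at hdk
  rw [ho] at hsq hor
  have hd1 : d = k + 1 := by
    have : d - 1 ≤ k := by
      by_contra hc
      push Not at hc
      have : k ^ 2 < (d - 1) ^ 2 := Nat.pow_lt_pow_left hc (by norm_num)
      omega
    omega
  -- the nonfixed points of `l`
  let W := {y : P // y ∈ l ∧ y ∉ fixP P N}
  have hWc : Fintype.card W = k ^ 2 - k := by
    rw [Fintype.card_subtype]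
    have h1 : (Finset.univ.filter (fun y : P => y ∈ l ∧ y ∉ fixP P N)) =
        (Finset.univ.filter (fun y : P => y ∈ l)) \ ((fixP P N).filter (fun y => y ∈ l)) := by
      ext y
      simp only [Finset.mem_filter, Finset.mem_univ, true_and, Finset.mem_sdiff]
      tauto
    rw [h1, Finset.card_sdiff_of_subset]
    · rw [card_points_on, ho]
      have := hb l hl
      unfold bb at this
      rw [this, hd1]
      omega
    · intro y hy
      rw [Finset.mem_filter] at hy ⊢
      exact ⟨Finset.mem_univ _, hy.2⟩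
  -- an element of prime order in `N`
  have hNc : Nat.card N ≠ 1 := by
    rw [Ne, Subgroup.card_eq_one]; exact hN1
  obtain ⟨p, hp, hpN⟩ := Nat.exists_prime_and_dvd hNc
  have : Fact p.Prime := ⟨hp⟩
  obtain ⟨g, hg⟩ := exists_prime_orderOf_dvd_card' p hpN
  have hgN : (g : G) ∈ N := g.2
  have hgl : (g : G) • l = l := mem_fixL.mp hl g hgN
  have hg1 : (g : G) ≠ 1 := by
    intro e
    have : g = 1 := by ext; exact e
    rw [this, orderOf_one] at hg
    exact hp.one_lt.ne hg
  have hgp : (g : G) ^ p = 1 := by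
    have : g ^ p = 1 := by rw [← hg]; exact pow_orderOf_eq_one g
    simpa using congrArg (fun x : N => (x : G)) this
  let f : Function.End W := fun y => ⟨(g : G) • y.1, by
    constructor
    · have := (h.inc g y.1 l).mp y.2.1
      rwa [hgl] at this
    · intro hc
      apply y.2.2
      have := smul_mem_fixP (g : G)⁻¹ hc
      rwa [inv_smul_smul] at this⟩
  have hfn : ∀ (n : ℕ) (y : W), ((f ^ n : Function.End W) y).1 = (g : G) ^ n • y.1 := by
    intro n
    induction n with
    | zero => intro y; rw [pow_zero, pow_zero, one_smul]; rfl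
    | succ n ih =>
      intro y
      rw [pow_succ', pow_succ', mul_smul, ← ih y]
      rfl
  have hf : f ^ p ^ 1 = 1 := by
    funext y
    apply Subtype.ext
    rw [hfn, pow_one, hgp, one_smul]
    rfl
  have hmod := Equiv.Perm.card_fixedPoints_modEq (p := p) (n := 1) hf
  have hfix : Fintype.card (Function.fixedPoints f) = 0 := by
    rw [Fintype.card_eq_zero_iff]
    constructor
    rintro ⟨y, hy⟩
    have hgy : (g : G) • y.1 = y.1 := congrArg Subtype.val hy
    -- the subgroup of N fixing y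
    have hst := h.stab_normal y.1
    set N' : Subgroup G := N ⊓ MulAction.stabilizer G y.1 with hN'
    have hN'n : N'.Normal := Subgroup.normal_inf_normal _ _
    have hgN' : (g : G) ∈ N' := ⟨hgN, hgy⟩
    have hN'1 : N' ≠ ⊥ := by
      intro e
      rw [e, Subgroup.mem_bot] at hgN'
      exact hg1 hgN'
    have hx0' : x0 ∈ fixP P N' := by
      rw [mem_fixP] at hx0 ⊢
      intro a ha; exact hx0 a ha.1
    obtain ⟨d', hd2', hb', -, -, hsq', -⟩ := h.lemmaF N' hN'1 hx0'
    have hlF' : l ∈ fixL L N' := by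
      rw [mem_fixL] at hl ⊢
      intro a ha; exact hl a ha.1
    have h1 := hb' l hlF'
    have h2 := hb l hl
    have h3 : d + 1 ≤ d' := by
      rw [← h1, ← h2]
      unfold bb
      have : insert y.1 ((fixP P N).filter (fun x => x ∈ l)) ⊆ (fixP P N').filter (fun x => x ∈ l) := by
        intro z hz
        rw [Finset.mem_insert, Finset.mem_filter] at hz
        rw [Finset.mem_filter]
        rcases hz with rfl | hz
        · refine ⟨?_, y.2.1⟩
          rw [mem_fixP]
          intro a ha
          exact ha.2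
        · refine ⟨?_, hz.2⟩
          have hz1 := hz.1
          rw [mem_fixP] at hz1 ⊢
          intro a ha; exact hz1 a ha.1
      have h4 := Finset.card_le_card this
      rwa [Finset.card_insert_of_notMem (by
        rw [Finset.mem_filter]
        intro hc; exact y.2.2 hc.1)] at h4
    rw [ho] at hsq'
    have : k ^ 2 < (d' - 1) ^ 2 := Nat.pow_lt_pow_left (by omega) (by norm_num)
    omega
  rw [hWc, hfix] at hmod
  have hpW : p ∣ k ^ 2 - k := (Nat.modEq_zero_iff_dvd).mp hmod
  have hpv : p ∣ k ^ 2 - k + 1 := by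
    apply hp.dvd_of_dvd_pow (n := 2)
    rw [← hG]
    exact dvd_trans hpN (Subgroup.card_subgroup_dvd_card N)
  have : p ∣ 1 := (Nat.dvd_add_right hpW).mp hpv
  exact hp.one_lt.ne' (Nat.dvd_one.mp this)

end Pool.Agent.U113.TH
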