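import Mathlib
import Pool.Agent.U113.TH.Act

/-!
# Counting the point orbits
-/

set_option autoImplicit false
set_option linter.unusedSectionVars false

namespace Pool.Agent.U113.TH

open Configuration Configuration.ProjectivePlane Finset
open scoped Classical

variable {P L : Type} [Membership P L] [ProjectivePlane P L] [Fintype P] [Fintype L]
variable {G : Type} [Group G] [MulAction G P] [MulAction G L] [Finite G]

/-- The complete orbit data. -/
structure THOrb (P L G : Type) [Membership P L] [ProjectivePlane P L] [Group G] [MulAction G P]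
    [MulAction G L] (k : ℕ) {ι : Type} [Fintype ι] (p0 : P) (x : ι → P) : Prop where
  qr : QR P L G
  k3 : 3 ≤ k
  ho : order P L = k ^ 2
  hG : Nat.card G = (k ^ 2 - k + 1) ^ 2
  cardI : Fintype.card ι = 2 * k
  st0 : MulAction.stabilizer G p0 = ⊥
  st : ∀ i, Nat.card (MulAction.stabilizer G (x i)) = k ^ 2 - k + 1
  sep : ∀ i j, i ≠ j → x j ∉ MulAction.orbit G (x i)
  sep0 : ∀ i, x i ∉ MulAction.orbit G p0
  cover : ∀ z : P, z ∈ MulAction.orbit G p0 ∨ ∃ i, z ∈ MulAction.orbit G (x i)

lemma card_orbit_mul (x : P) :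
    Nat.card (MulAction.orbit G x) * Nat.card (MulAction.stabilizer G x) = Nat.card G := by
  rw [← Subgroup.card_mul_index (MulAction.stabilizer G x), MulAction.index_stabilizer,
    mul_comm]
  rfl

lemma QR.orbit_le (h : QR P L G) {k : ℕ} (ho : order P L = k ^ 2)
    (hG : Nat.card G = (k ^ 2 - k + 1) ^ 2) (x : P) (hx : MulAction.stabilizer G x ≠ ⊥) :
    Nat.card (MulAction.orbit G x) ≤ k ^ 2 - k + 1 := by
  have hn := h.stab_normal x
  have hx0 : x ∈ fixP P (MulAction.stabilizer G x) := by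
    rw [mem_fixP]; intro g hg; exact hg
  obtain ⟨d, hd2, hdk, -, -, hc, -⟩ := h.lemmaF' ho hG _ hx hx0
  have h1 : Nat.card (MulAction.orbit G x) ≤ (fixP P (MulAction.stabilizer G x)).card := by
    rw [Nat.card_eq_fintype_card, Fintype.card_subtype]
    apply Finset.card_le_card
    intro y hy
    rw [Finset.mem_filter] at hy
    obtain ⟨g, rfl⟩ := hy.2
    exact smul_mem_fixP g hx0
  refine h1.trans ?_
  rw [hc]
  have h2 : d * (d - 1) ≤ k * (k - 1) := Nat.mul_le_mul hdk (by omega)
  have h3 : k * (k - 1) = k ^ 2 - k := by rw [Nat.mul_sub, mul_one, sq]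
  omega

theorem QR.exists_TH (h : QR P L G) {k : ℕ} (ho : order P L = k ^ 2)
    (hG : Nat.card G = (k ^ 2 - k + 1) ^ 2) (hbig : 2 * Nat.card G > (k ^ 2) ^ 2 + k ^ 2 + 1)
    (hm : Nat.card (MulAction.orbitRel.Quotient G P) = 2 * k + 1) :
    ∃ (ι : Type) (_ : Fintype ι) (p0 : P) (x : ι → P), THOrb P L G k p0 x := by
  have hk3 : 3 ≤ k := by
    by_contra hc
    have h1 := one_lt_order P L
    rw [ho] at h1
    rw [hG] at hbig
    have : k = 0 ∨ k = 1 ∨ k = 2 := by omega
    rcases this with rfl | rfl | rfl <;> simp_all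
  have hkk : k ≤ k ^ 2 := by nlinarith
  set v := k ^ 2 - k + 1 with hv
  have hvz : (v : ℤ) = (k : ℤ) ^ 2 - k + 1 := by rw [hv]; push_cast [Nat.cast_sub hkk]; ring
  have hP : Fintype.card P = v * (v + 2 * k) := by
    rw [card_points P L, ho]
    zify
    rw [hvz]; ring
  have : Fintype (MulAction.orbitRel.Quotient G P) := Fintype.ofFinite _
  set Ω := MulAction.orbitRel.Quotient G P with hΩ
  set sz : Ω → ℕ := fun ω => Nat.card (MulAction.orbit G ω.out) with hsz
  have hsum : ∑ ω : Ω, sz ω = v * (v + 2 * k) := by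
    rw [← hP, ← Nat.card_eq_fintype_card, Nat.card_congr (MulAction.selfEquivSigmaOrbits G P),
      Nat.card_sigma]
  have hΩc : Fintype.card Ω = 2 * k + 1 := by rw [← Nat.card_eq_fintype_card, hm]
  have hreg : ∀ ω : Ω, MulAction.stabilizer G ω.out = ⊥ → sz ω = v ^ 2 := by
    intro ω hω
    have := card_orbit_mul (G := G) ω.out
    rw [hω, hG, Subgroup.card_bot, mul_one] at this
    exact this
  have hnon : ∀ ω : Ω, MulAction.stabilizer G ω.out ≠ ⊥ → sz ω ≤ v := fun ω hω =>
    h.orbit_le ho hG _ hω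
  have hv1 : 1 < v := by
    zify; rw [hvz]
    have : (3 : ℤ) ≤ k := by exact_mod_cast hk3
    nlinarith
  -- existence of a regular orbit
  have hex : ∃ ω : Ω, MulAction.stabilizer G ω.out = ⊥ := by
    by_contra hc
    push Not at hc
    have h1 : ∑ ω : Ω, sz ω ≤ ∑ _ω : Ω, v := Finset.sum_le_sum fun ω _ => hnon ω (hc ω)
    rw [hsum, Finset.sum_const, Finset.card_univ, hΩc, smul_eq_mul] at h1
    have h2 : v * (v + 2 * k) ≤ v * (2 * k + 1) := by linarith
    have h3 := Nat.le_of_mul_le_mul_left h2 (by omega)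
    omega
  obtain ⟨ω0, hω0⟩ := hex
  have huniq : ∀ ω : Ω, ω ≠ ω0 → MulAction.stabilizer G ω.out ≠ ⊥ := by
    intro ω hne hω
    have h1 : ∑ ω' ∈ ({ω, ω0} : Finset Ω), sz ω' ≤ ∑ ω' : Ω, sz ω' :=
      Finset.sum_le_sum_of_subset (Finset.subset_univ _)
    rw [Finset.sum_pair hne, hreg ω hω, hreg ω0 hω0, hsum, ← hP, card_points P L, ho] at h1
    rw [hG] at hbig
    omega
  have hrest : ∑ ω ∈ Finset.univ.erase ω0, sz ω = ∑ ω ∈ Finset.univ.erase ω0, v := by
    rw [Finset.sum_const, Finset.card_erase_of_mem (Finset.mem_univ _), Finset.card_univ, hΩc,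
      smul_eq_mul]
    have := Finset.add_sum_erase Finset.univ sz (Finset.mem_univ ω0)
    rw [hsum, hreg ω0 hω0] at this
    have e : v * (v + 2 * k) = v ^ 2 + (2 * k + 1 - 1) * v := by
      rw [Nat.add_sub_cancel]; ring
    omega
  have heq : ∀ ω : Ω, ω ≠ ω0 → sz ω = v := by
    intro ω hω
    have := (Finset.sum_eq_sum_iff_of_le (s := Finset.univ.erase ω0) (f := sz) (g := fun _ => v)
      (fun ω' hω' => hnon ω' (huniq ω' (Finset.ne_of_mem_erase hω')))).mp hrest
    exact this ω (Finset.mem_erase.mpr ⟨hω, Finset.mem_univ _⟩)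
  refine ⟨{ω : Ω // ω ≠ ω0}, inferInstance, ω0.out, fun ω => ω.1.out, ?_⟩
  have hmk : ∀ ω : Ω, ∀ z : P, z ∈ MulAction.orbit G ω.out ↔ (Quotient.mk'' z : Ω) = ω := by
    intro ω z
    have h1 : (MulAction.orbitRel G P) z ω.out ↔ z ∈ MulAction.orbit G ω.out :=
      MulAction.orbitRel_apply
    rw [← h1]
    constructor
    · intro h2
      have : (Quotient.mk'' z : Ω) = Quotient.mk'' ω.out := Quotient.sound' h2
      rw [this]; exact Quotient.out_eq' ω
    · intro h2
      apply Quotient.exact'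
      rw [h2]; exact (Quotient.out_eq' ω).symm
  constructor
  · exact h
  · exact hk3
  · exact ho
  · exact hG
  · rw [Fintype.card_subtype_compl, hΩc]; simp
  · exact hω0
  · intro i
    have h1 := card_orbit_mul (G := G) i.1.out
    have h2 := heq i.1 i.2
    simp only [hsz] at h2
    rw [h2, hG] at h1
    have h3 : v * Nat.card (MulAction.stabilizer G i.1.out) = v * v := by rw [h1]; ring
    exact Nat.eq_of_mul_eq_mul_left (by omega) h3
  · intro i j hij hc
    rw [hmk] at hc
    apply hij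
    apply Subtype.ext
    rw [← hc]; exact Quotient.out_eq' _
  · intro i hc
    rw [hmk] at hc
    exact i.2 ((Quotient.out_eq' _).symm.trans hc)
  · intro z
    by_cases hz : (Quotient.mk'' z : Ω) = ω0
    · left; rw [hmk]; exact hz
    · right; exact ⟨⟨_, hz⟩, by rw [hmk]⟩

end Pool.Agent.U113.TH
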