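import Mathlib

/-!
# Number theory: self-conjugate primes modulo `p ^ a = k² - k + 1`
-/

set_option autoImplicit false

namespace Pool.Agent.U113.TH

/-- lifting `x ≡ -1 (mod p)` to `x ^ (p ^ n) ≡ -1 (mod p ^ (n+1))` -/
lemma lift_neg_one {p : ℕ} (hp : p.Prime) (hp2 : p ≠ 2) (x : ℤ) (hx : (p : ℤ) ∣ x + 1) (n : ℕ) :
    ((p : ℤ) ^ (n + 1)) ∣ x ^ (p ^ n) + 1 := by
  have h := dvd_sub_pow_of_dvd_sub (R := ℤ) (p := p) (a := x) (b := -1) (by simpa using hx) n
  rwa [Odd.neg_one_pow ((hp.odd_of_ne_two hp2).pow), sub_neg_eq_add] at h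

/-- In `ZMod p`, an element of even order has `-1` among its powers. -/
lemma exists_pow_eq_neg_one {p : ℕ} [hp : Fact p.Prime] (x : ZMod p) (hx : x ≠ 0)
    (he : Even (orderOf x)) : ∃ j, 1 ≤ j ∧ x ^ j = -1 := by
  obtain ⟨m, hm⟩ := he
  have hpos : 0 < orderOf x := by
    rw [orderOf_pos_iff]
    rw [isOfFinOrder_iff_pow_eq_one]
    exact ⟨p - 1, by have := hp.out.two_le; omega, ZMod.pow_card_sub_one_eq_one hx⟩
  refine ⟨m, by omega, ?_⟩
  have h1 : (x ^ m) ^ 2 = 1 := by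
    rw [← pow_mul, mul_two, ← hm, pow_orderOf_eq_one]
  rcases sq_eq_one_iff.mp h1 with h2 | h2
  · exfalso
    have := Nat.le_of_dvd (by omega) (orderOf_dvd_of_pow_eq_one h2)
    omega
  · exact h2

/-- From `x ^ j = -1` in `ZMod p` to self-conjugacy modulo `p ^ a`. -/
lemma selfConj_of_zmod {p : ℕ} [hp : Fact p.Prime] (hp2 : p ≠ 2) {a : ℕ} (ha : 1 ≤ a) (r : ℕ)
    {j : ℕ} (hj : 1 ≤ j) (h : (r : ZMod p) ^ j = -1) :
    ∃ J, 1 ≤ J ∧ ((p ^ a : ℕ) : ℤ) ∣ (r : ℤ) ^ J + 1 := by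
  refine ⟨j * p ^ (a - 1), Nat.mul_pos hj (pow_pos hp.out.pos _), ?_⟩
  have h1 : (p : ℤ) ∣ (r : ℤ) ^ j + 1 := by
    rw [← ZMod.intCast_zmod_eq_zero_iff_dvd]
    push_cast
    rw [h]; ring
  have h2 := lift_neg_one hp.out hp2 ((r : ℤ) ^ j) h1 (a - 1)
  rw [Nat.sub_add_cancel ha, ← pow_mul] at h2
  exact_mod_cast h2

/-- Some prime divisor of `k` has even order modulo `p`. -/
lemma exists_prime_even {p : ℕ} [hp : Fact p.Prime] (hp2 : p ≠ 2) {k : ℕ} (hk : 1 ≤ k)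
    (hk3 : (k : ZMod p) ^ 3 = -1) :
    ∃ r, r.Prime ∧ r ∣ k ∧ ∃ j, 1 ≤ j ∧ (r : ZMod p) ^ j = -1 := by
  by_contra hcon
  push Not at hcon
  have hneg : (-1 : ZMod p) ≠ 1 := by
    have : Fact (2 < p) := ⟨by have := hp.out.two_le; omega⟩
    exact ZMod.neg_one_ne_one
  have hk0 : (k : ZMod p) ≠ 0 := by
    intro h0
    rw [h0] at hk3
    norm_num at hk3
  have key : ∀ n : ℕ, n ≠ 0 → n ∣ k → ∃ m, Odd m ∧ (n : ZMod p) ^ m = 1 := by
    intro n
    induction n using induction_on_primes with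
    | zero => intro h; exact absurd rfl h
    | one => intro _ _; exact ⟨1, odd_one, by simp⟩
    | prime_mul q a hq ih =>
      intro h0 hdvd
      have ha0 : a ≠ 0 := right_ne_zero_of_mul h0
      obtain ⟨m1, hm1, e1⟩ := ih ha0 (dvd_trans (dvd_mul_left _ _) hdvd)
      have hqk : q ∣ k := dvd_trans (dvd_mul_right _ _) hdvd
      have hq0 : (q : ZMod p) ≠ 0 := by
        intro h
        obtain ⟨t, rfl⟩ := hqk
        apply hk0
        push_cast
        rw [h, zero_mul]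
      have hodd : Odd (orderOf (q : ZMod p)) := by
        by_contra hne
        rw [Nat.not_odd_iff_even] at hne
        obtain ⟨j, hj, e⟩ := exists_pow_eq_neg_one _ hq0 hne
        exact hcon q hq hqk j hj e
      refine ⟨m1 * orderOf (q : ZMod p), hm1.mul hodd, ?_⟩
      push_cast
      rw [mul_pow, mul_comm m1, pow_mul, pow_orderOf_eq_one, one_pow, one_mul, mul_comm, pow_mul, e1,
        one_pow]
  obtain ⟨m, hm, e⟩ := key k (by omega) dvd_rfl
  have : (-1 : ZMod p) = 1 := by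
    calc (-1 : ZMod p) = (-1) ^ m := by rw [hm.neg_one_pow]
      _ = ((k : ZMod p) ^ 3) ^ m := by rw [hk3]
      _ = ((k : ZMod p) ^ m) ^ 3 := by rw [← pow_mul, ← pow_mul, mul_comm]
      _ = 1 := by rw [e, one_pow]
  exact hneg this

/-- The number-theoretic endgame. -/
theorem arith {k : ℕ} (hk : 3 ≤ k) (hpp : IsPrimePow (k ^ 2 - k + 1))
    (hB : ∀ r j c : ℕ, r.Prime → 1 ≤ j → ((k ^ 2 - k + 1 : ℕ) : ℤ) ∣ (r : ℤ) ^ j + 1 → r ^ c ∣ k →
      r ^ c ≤ 2)
    (hA : ∀ r j : ℕ, r.Prime → 1 ≤ j → ((k ^ 2 - k + 1 : ℕ) : ℤ) ∣ (r : ℤ) ^ j + 1 →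
      (r : ℤ) ∣ (k : ℤ) - 1 → False) : False := by
  have hkk : k ≤ k ^ 2 := by nlinarith
  have hvz : ((k ^ 2 - k + 1 : ℕ) : ℤ) = (k : ℤ) ^ 2 - k + 1 := by
    push_cast [Nat.cast_sub hkk]; ring
  obtain ⟨p, a, hp, ha, hpa⟩ := hpp
  have hp' : p.Prime := Nat.prime_iff.mpr hp
  have : Fact p.Prime := ⟨hp'⟩
  rw [← hpa] at hB hA hvz
  have hpaz : (p : ℤ) ^ a = (k : ℤ) ^ 2 - k + 1 := by exact_mod_cast hvz
  have hodd : Odd ((k : ℤ) ^ 2 - k + 1) := by
    have : (k : ℤ) ^ 2 - k = k * (k - 1) := by ring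
    rw [this]
    exact Even.add_one (Int.even_mul_pred_self _)
  have hp2 : p ≠ 2 := by
    rintro rfl
    rw [← hpaz] at hodd
    have : Even ((2 : ℕ) : ℤ) := ⟨1, by norm_num⟩
    exact (Int.not_even_iff_odd.mpr hodd) (this.pow_of_ne_zero ha.ne')
  have hpdvd : (p : ℤ) ∣ (k : ℤ) ^ 2 - k + 1 := by
    rw [← hpaz]; exact dvd_pow_self _ ha.ne'
  have hk3 : (k : ZMod p) ^ 3 = -1 := by
    have : (p : ℤ) ∣ (k : ℤ) ^ 3 + 1 := by
      have e : (k : ℤ) ^ 3 + 1 = (k + 1) * (k ^ 2 - k + 1) := by ring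
      rw [e]; exact Dvd.dvd.mul_left hpdvd _
    rw [← ZMod.intCast_zmod_eq_zero_iff_dvd] at this
    push_cast at this
    exact eq_neg_of_add_eq_zero_left this
  obtain ⟨r, hr, hrk, j, hj, e⟩ := exists_prime_even hp2 (by omega) hk3
  obtain ⟨J, hJ, hdv⟩ := selfConj_of_zmod hp2 (show 1 ≤ a by omega) r hj e
  have hr2 : r = 2 := by
    have h1 := hB r J 1 hr hJ hdv (by simpa using hrk)
    rw [pow_one] at h1
    have := hr.two_le
    omega
  subst hr2
  have h4 : ¬ 4 ∣ k := by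
    intro h
    have := hB 2 J 2 hr hJ hdv (by simpa using h)
    norm_num at this
  have hk4 : k % 4 = 2 := by omega
  have hv4 : p ^ a % 4 = 3 := by
    obtain ⟨s, hs⟩ : ∃ s, k = 4 * s + 2 := ⟨k / 4, by omega⟩
    have : ((p ^ a : ℕ) : ℤ) % 4 = 3 := by
      rw [hvz, hs]; push_cast
      have : (4 * (s : ℤ) + 2) ^ 2 - (4 * s + 2) + 1 = 3 + 4 * (4 * s ^ 2 + 3 * s) := by ring
      rw [this]; omega
    exact_mod_cast this
  have hpmod : p % 4 = 3 ∧ Odd a := by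
    have hpo := hp'.odd_of_ne_two hp2
    have h13 : p % 4 = 1 ∨ p % 4 = 3 := by
      rcases hpo with ⟨t, ht⟩; omega
    rcases h13 with h | h
    · exfalso
      have : p ^ a % 4 = 1 := by rw [Nat.pow_mod, h]; simp
      omega
    · refine ⟨h, ?_⟩
      by_contra hne
      rw [Nat.not_odd_iff_even] at hne
      obtain ⟨b, hb⟩ := hne
      have : p ^ a % 4 = 1 := by
        rw [hb, ← two_mul, pow_mul, Nat.pow_mod, Nat.pow_mod p, h]; simp
      omega
  have h3cases : k % 3 = 0 ∨ k % 3 = 1 ∨ k % 3 = 2 := by omega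
  -- 3 is self-conjugate unless `3 ∣ v`
  have hself : k % 3 ≠ 2 → ∃ J, 1 ≤ J ∧ ((p ^ a : ℕ) : ℤ) ∣ ((3 : ℕ) : ℤ) ^ J + 1 := by
    intro hk2
    have hv3 : p ^ a % 3 = 1 := by
      have : ((p ^ a : ℕ) : ℤ) % 3 = 1 := by
        rw [hvz]
        rcases h3cases with h | h | h
        · obtain ⟨s, hs⟩ : ∃ s, k = 3 * s := ⟨k / 3, by omega⟩
          rw [hs]; push_cast
          have : (3 * (s : ℤ)) ^ 2 - (3 * s) + 1 = 1 + 3 * (3 * s ^ 2 - s) := by ring
          rw [this]; omega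
        · obtain ⟨s, hs⟩ : ∃ s, k = 3 * s + 1 := ⟨k / 3, by omega⟩
          rw [hs]; push_cast
          have : (3 * (s : ℤ) + 1) ^ 2 - (3 * s + 1) + 1 = 1 + 3 * (3 * s ^ 2 + s) := by ring
          rw [this]; omega
        · exact absurd h hk2
      exact_mod_cast this
    have hp3 : p % 3 = 1 := by
      have h012 : p % 3 = 0 ∨ p % 3 = 1 ∨ p % 3 = 2 := by omega
      rcases h012 with h | h | h
      · exfalso
        have : p ^ a % 3 = 0 := by rw [Nat.pow_mod, h, zero_pow ha.ne', Nat.zero_mod]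
        omega
      · exact h
      · exfalso
        obtain ⟨b, hb⟩ := hpmod.2
        have : p ^ a % 3 = 2 := by
          rw [hb, pow_add, pow_mul, Nat.mul_mod, Nat.pow_mod (p ^ 2), Nat.pow_mod p 2, h, pow_one, h]
          simp
        omega
    have hp3ne : p ≠ 3 := by rintro rfl; omega
    have : Fact (Nat.Prime 3) := ⟨Nat.prime_three⟩
    have hns : ¬ IsSquare ((3 : ℕ) : ZMod p) := by
      rw [ZMod.exists_sq_eq_prime_iff_of_mod_four_eq_three hpmod.1 (by norm_num) hp3ne, not_not]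
      have : ((p : ℕ) : ZMod 3) = 1 := by
        rw [← ZMod.natCast_mod, hp3]; simp
      rw [this]
      exact ⟨1, by simp⟩
    have h30 : ((3 : ℕ) : ZMod p) ≠ 0 := by
      intro h0
      rw [ZMod.natCast_eq_zero_iff] at h0
      exact hp3ne ((Nat.prime_dvd_prime_iff_eq hp' Nat.prime_three).mp h0)
    have hpow : ((3 : ℕ) : ZMod p) ^ (p / 2) = -1 := by
      rcases ZMod.pow_div_two_eq_neg_one_or_one p h30 with h | h
      · exact absurd ((ZMod.euler_criterion p h30).mpr h) hns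
      · exact h
    exact selfConj_of_zmod hp2 (show 1 ≤ a by omega) 3
      (show 1 ≤ p / 2 by have := hp'.two_le; omega) hpow
  rcases h3cases with h | h | h
  · obtain ⟨J', hJ', hd'⟩ := hself (by omega)
    have := hB 3 J' 1 Nat.prime_three hJ' hd' (by rw [pow_one]; omega)
    norm_num at this
  · obtain ⟨J', hJ', hd'⟩ := hself (by omega)
    exact hA 3 J' Nat.prime_three hJ' hd' (by push_cast; omega)
  · -- 3 ∣ v, 9 ∤ v
    obtain ⟨s, hs⟩ : ∃ s, k = 3 * s + 2 := ⟨k / 3, by omega⟩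
    have hval : ((p ^ a : ℕ) : ℤ) = 3 + 9 * (s ^ 2 + s) := by
      rw [hvz, hs]; push_cast; ring
    have h3v : p ^ a % 3 = 0 := by
      have : ((p ^ a : ℕ) : ℤ) % 3 = 0 := by rw [hval]; omega
      exact_mod_cast this
    have hp3 : p = 3 := by
      have : 3 ∣ p := Nat.prime_three.dvd_of_dvd_pow (Nat.dvd_of_mod_eq_zero h3v)
      exact ((Nat.prime_dvd_prime_iff_eq Nat.prime_three hp').mp this).symm
    subst hp3
    have ha1 : a = 1 := by
      by_contra hne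
      have : 2 ≤ a := by omega
      have h9 : 3 ^ 2 ∣ 3 ^ a := pow_dvd_pow 3 this
      have h9' : ((3 ^ a : ℕ) : ℤ) % 9 = 0 := by
        have : (9 : ℤ) ∣ ((3 ^ a : ℕ) : ℤ) := by exact_mod_cast h9
        omega
      rw [hval] at h9'
      omega
    subst ha1
    have hs1 : 1 ≤ s := by omega
    have : (1 : ℤ) ≤ s := by exact_mod_cast hs1
    norm_num at hval
    nlinarith

end Pool.Agent.U113.TH
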