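import Mathlib

/-!
# Self-conjugate primes in integral group rings, without characters

Let `G` be a finite abelian group, `r` a prime and `j ≥ 1` with `g ^ (r ^ j) = g⁻¹` for all `g`.
If `X ∈ ℤ[G]` satisfies `X X' ≡ 0 (mod r ^ (2 c))` (where `X'` is the image of `X` under `g ↦ g⁻¹`),
then `X ≡ 0 (mod r ^ c)`.
-/

set_option autoImplicit false

namespace Pool.Agent.U113.TH

open MonoidAlgebra

variable {G : Type*} [CommGroup G]

/-- The ring endomorphism of `R[G]` induced by `g ↦ g ^ m`. -/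
noncomputable def pw (R : Type*) [CommRing R] (m : ℕ) : MonoidAlgebra R G →+* MonoidAlgebra R G :=
  mapDomainRingHom R (powMonoidHom m)

/-- The involution of `R[G]` induced by `g ↦ g⁻¹`. -/
noncomputable def inv' (R : Type*) [CommRing R] : MonoidAlgebra R G →+* MonoidAlgebra R G :=
  mapDomainRingHom R (invMonoidHom)

lemma inv'_single (R : Type*) [CommRing R] (g : G) (a : R) :
    inv' R (single g a) = single g⁻¹ a := by
  simp [inv']

lemma pw_single (R : Type*) [CommRing R] (m : ℕ) (g : G) (a : R) :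
    pw R m (single g a) = single (g ^ m) a := by
  simp [pw]

lemma pow_frob (r : ℕ) [hr : Fact r.Prime] (j : ℕ) (x : MonoidAlgebra (ZMod r) G) :
    x ^ (r ^ j) = pw (ZMod r) (r ^ j) x := by
  have : CharP (MonoidAlgebra (ZMod r) G) r :=
    charP_of_injective_algebraMap' (ZMod r) r
  have : ExpChar (MonoidAlgebra (ZMod r) G) r := ExpChar.prime hr.out
  have h : iterateFrobenius (MonoidAlgebra (ZMod r) G) r j = pw (ZMod r) (r ^ j) := by
    apply MonoidAlgebra.ringHom_ext
    · intro a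
      rw [iterateFrobenius_def, pw_single, single_pow, one_pow, ZMod.pow_card_pow]
    · intro g
      rw [iterateFrobenius_def, pw_single, single_pow, one_pow]
  rw [← h, iterateFrobenius_def]

/-- reduction mod r -/
noncomputable def red (r : ℕ) : MonoidAlgebra ℤ G →+* MonoidAlgebra (ZMod r) G :=
  mapRingHom G (Int.castRingHom (ZMod r))

lemma red_eq_zero_iff (r : ℕ) (X : MonoidAlgebra ℤ G) :
    red r X = 0 ↔ ∀ g, (r : ℤ) ∣ X.coeff g := by
  rw [← MonoidAlgebra.coeff_eq_zero]
  constructor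
  · intro h g
    have := DFunLike.congr_fun h g
    simp only [red, mapRingHom_apply, Finsupp.coe_zero,
      Pi.zero_apply, eq_intCast] at this
    exact (ZMod.intCast_zmod_eq_zero_iff_dvd _ _).mp this
  · intro h
    ext g
    simp only [red, mapRingHom_apply, Finsupp.coe_zero,
      Pi.zero_apply, eq_intCast]
    exact (ZMod.intCast_zmod_eq_zero_iff_dvd _ _).mpr (h g)

lemma red_inv' (r : ℕ) (X : MonoidAlgebra ℤ G) :
    red r (inv' ℤ X) = inv' (ZMod r) (red r X) := by
  have : (red r).comp (inv' ℤ) = (inv' (ZMod r)).comp (red r : MonoidAlgebra ℤ G →+* _) := by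
    apply MonoidAlgebra.ringHom_ext
    · intro a; simp [red, inv'_single]
    · intro g; simp [red, inv'_single]
  exact RingHom.congr_fun this X

/-- The self-conjugate prime lemma, modulo `r`. -/
lemma dvd_of_selfConj_one {r j : ℕ} (hr : r.Prime) (hj : 1 ≤ j)
    (hG : ∀ g : G, g ^ (r ^ j) = g⁻¹) (X : MonoidAlgebra ℤ G)
    (hX : ∀ g, (r : ℤ) ∣ (X * inv' ℤ X).coeff g) : ∀ g, (r : ℤ) ∣ X.coeff g := by
  have : Fact r.Prime := ⟨hr⟩
  rw [← red_eq_zero_iff] at hX ⊢
  rw [map_mul, red_inv'] at hX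
  set x := red r X with hx
  have h1 : inv' (ZMod r) x = x ^ (r ^ j) := by
    rw [pow_frob]
    have : (invMonoidHom : G →* G) = powMonoidHom (r ^ j) := by
      ext g; simp [hG]
    simp only [inv', pw, this]
  rw [h1, ← pow_succ'] at hX
  have h2 : x ^ (r ^ (2 * j)) = x := by
    rw [pow_frob]
    have : (powMonoidHom (r ^ (2 * j)) : G →* G) = MonoidHom.id G := by
      ext g
      simp only [powMonoidHom_apply, MonoidHom.id_apply]
      rw [two_mul, pow_add, pow_mul, hG, hG, inv_inv]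
    simp only [pw, this, mapDomainRingHom_id, RingHom.id_apply]
  rw [← h2]
  have h3 : r ^ j + 1 ≤ r ^ (2 * j) := by
    have h4 : 2 ≤ r ^ j := by
      calc 2 ≤ r := hr.two_le
        _ = r ^ 1 := (pow_one r).symm
        _ ≤ r ^ j := Nat.pow_le_pow_right hr.pos hj
    rw [two_mul, pow_add]
    nlinarith
  exact pow_eq_zero_of_le h3 hX

/-- The self-conjugate prime lemma. -/
lemma dvd_of_selfConj {r j : ℕ} (hr : r.Prime) (hj : 1 ≤ j)
    (hG : ∀ g : G, g ^ (r ^ j) = g⁻¹) (c : ℕ) : ∀ (X : MonoidAlgebra ℤ G)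
    (_ : ∀ g, ((r ^ (2 * c) : ℕ) : ℤ) ∣ (X * inv' ℤ X).coeff g), ∀ g, ((r ^ c : ℕ) : ℤ) ∣ X.coeff g := by
  induction c with
  | zero => intro X _ g; simp
  | succ c ih =>
    intro X hX
    have h1 : ∀ g, (r : ℤ) ∣ X.coeff g := by
      apply dvd_of_selfConj_one hr hj hG X
      intro g
      refine dvd_trans ?_ (hX g)
      exact_mod_cast dvd_pow_self r (by omega)
    -- X = r • X1
    obtain ⟨X1, hX1⟩ : ∃ X1 : MonoidAlgebra ℤ G, X = (r : ℤ) • X1 := by
      refine ⟨MonoidAlgebra.ofCoeff (X.coeff.mapRange (fun z => z / (r : ℤ)) (by simp)), ?_⟩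
      ext g
      rw [coeff_smul_apply, coeff_ofCoeff, Finsupp.mapRange_apply, smul_eq_mul]
      exact (Int.mul_ediv_cancel' (h1 g)).symm
    have h2 : X * inv' ℤ X = ((r : ℤ) ^ 2) • (X1 * inv' ℤ X1) := by
      rw [hX1, map_zsmul, smul_mul_smul_comm, sq]
    have h3 : ∀ g, ((r ^ (2 * c) : ℕ) : ℤ) ∣ (X1 * inv' ℤ X1).coeff g := by
      intro g
      have := hX g
      rw [h2, coeff_smul_apply, smul_eq_mul, show 2 * (c + 1) = 2 + 2 * c by ring, pow_add] at this
      push_cast at this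
      have h5 : ((r : ℤ) ^ 2) ≠ 0 := pow_ne_zero _ (by exact_mod_cast hr.ne_zero)
      exact_mod_cast (mul_dvd_mul_iff_left h5).mp this
    intro g
    have := ih X1 h3 g
    rw [hX1, coeff_smul_apply, smul_eq_mul, pow_succ']
    push_cast
    exact mul_dvd_mul_left _ (by exact_mod_cast this)

end Pool.Agent.U113.TH
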