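import Mathlib
import Pool.Agent.U113.TH.SelfConj

/-!
# The group ring core of the nonexistence of type (h)
-/

set_option autoImplicit false

namespace Pool.Agent.U113.TH

open MonoidAlgebra Finset

variable {G : Type*} [CommGroup G] [Fintype G] [DecidableEq G]

lemma coeff_mul_fin (X Y : MonoidAlgebra ℤ G) (g : G) :
    (X * Y).coeff g = ∑ h, X.coeff h * Y.coeff (h⁻¹ * g) := by
  rw [coeff_mul, Finsupp.sum_fintype _ _ (by simp)]
  refine Finset.sum_congr rfl fun h _ => ?_
  rw [Finsupp.sum_fintype _ _ (by simp), Finset.sum_eq_single (h⁻¹ * g)]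
  · simp
  · intro b _ hb
    rw [if_neg]
    rintro rfl
    simp at hb
  · simp

omit [Fintype G] [DecidableEq G] in
lemma coeff_inv' (X : MonoidAlgebra ℤ G) (g : G) : (inv' ℤ X).coeff g = X.coeff g⁻¹ := by
  have hinj : Function.Injective (fun x : G => x⁻¹) := inv_injective
  have := Finsupp.mapDomain_apply hinj X.coeff g⁻¹
  simp only [inv_inv] at this
  rw [← this]
  rfl

/-- indicator element of a finite set -/
noncomputable def ind (S : Finset G) : MonoidAlgebra ℤ G := ∑ g ∈ S, single g 1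

omit [CommGroup G] [Fintype G] in
lemma coeff_ind (S : Finset G) (g : G) : (ind S).coeff g = if g ∈ S then 1 else 0 := by
  simp [ind, Finsupp.single_apply]

/-- The sum of all group elements. -/
noncomputable def Gam (G : Type*) [Fintype G] : MonoidAlgebra ℤ G := ∑ g, single g 1

omit [CommGroup G] in
lemma coeff_Gam (g : G) : (Gam G).coeff g = 1 := by
  simp [Gam, Finsupp.single_apply]

lemma coeff_natCast_mul (n : ℕ) (X : MonoidAlgebra ℤ G) (g : G) :
    ((n : MonoidAlgebra ℤ G) * X).coeff g = n * X.coeff g := by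
  rw [← nsmul_eq_mul, coeff_smul_apply, nsmul_eq_mul]

lemma coeff_intCast_mul (n : ℤ) (X : MonoidAlgebra ℤ G) (g : G) :
    ((n : MonoidAlgebra ℤ G) * X).coeff g = n * X.coeff g := by
  rw [← zsmul_eq_mul, coeff_smul_apply, zsmul_eq_mul]
  simp

lemma mul_Gam (X : MonoidAlgebra ℤ G) : X * Gam G = ((∑ g, X.coeff g : ℤ) : MonoidAlgebra ℤ G) * Gam G := by
  ext g
  rw [coeff_intCast_mul, coeff_mul_fin]
  simp [coeff_Gam]

lemma sum_ind (S : Finset G) : ∑ g, (ind S).coeff g = S.card := by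
  simp [coeff_ind]

lemma ind_mul_Gam (S : Finset G) : ind S * Gam G = ((S.card : ℤ) : MonoidAlgebra ℤ G) * Gam G := by
  rw [mul_Gam, sum_ind]

lemma inv'_Gam : inv' ℤ (Gam G) = Gam G := by
  ext g; rw [coeff_inv', coeff_Gam, coeff_Gam]

lemma Gam_mul_Gam : Gam G * Gam G = ((Fintype.card G : ℤ) : MonoidAlgebra ℤ G) * Gam G := by
  rw [mul_Gam]; simp [coeff_Gam]

/-- indicator of a subgroup -/
noncomputable def sg (N : Subgroup G) : MonoidAlgebra ℤ G :=
  letI := Classical.decPred (fun x => x ∈ N)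
  ind (Finset.univ.filter (· ∈ N))

open Classical in
lemma coeff_sg (N : Subgroup G) (g : G) : (sg N).coeff g = if g ∈ N then 1 else 0 := by
  rw [sg, coeff_ind]; simp

lemma inv'_sg (N : Subgroup G) : inv' ℤ (sg N) = sg N := by
  classical
  ext g; rw [coeff_inv', coeff_sg, coeff_sg]; simp

open Classical in
lemma sum_sg (N : Subgroup G) : ∑ g, (sg N).coeff g = Nat.card N := by
  simp only [coeff_sg]
  rw [Finset.sum_boole, Nat.card_eq_fintype_card, Fintype.card_subtype]

lemma sg_mul_Gam (N : Subgroup G) : sg N * Gam G = ((Nat.card N : ℤ) : MonoidAlgebra ℤ G) * Gam G := by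
  rw [mul_Gam, sum_sg]

lemma sg_mul_self (N : Subgroup G) : sg N * sg N = ((Nat.card N : ℤ) : MonoidAlgebra ℤ G) * sg N := by
  classical
  ext g
  rw [coeff_intCast_mul, coeff_mul_fin, ← sum_sg, Finset.sum_mul]
  refine Finset.sum_congr rfl fun h _ => ?_
  rw [coeff_sg, coeff_sg, coeff_sg]
  by_cases hh : h ∈ N
  · have : h⁻¹ * g ∈ N ↔ g ∈ N := N.mul_mem_cancel_left (N.inv_mem hh)
    simp [hh, this]
  · simp [hh]

lemma sg_mul_compl (N M : Subgroup G) (hNM : Disjoint N M)
    (hc : Nat.card N * Nat.card M = Nat.card G) : sg N * sg M = Gam G := by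
  classical
  have hcomp := Subgroup.isComplement'_of_card_mul_and_disjoint hc hNM
  ext g
  rw [coeff_mul_fin, coeff_Gam]
  obtain ⟨⟨a, b⟩, hab, huniq⟩ := hcomp.existsUnique g
  simp only at hab huniq
  rw [Finset.sum_eq_single (a : G)]
  · have ha : (a : G) ∈ N := a.2
    have hb : ((a : G))⁻¹ * g ∈ M := by rw [← hab]; simpa using b.2
    rw [coeff_sg, coeff_sg, if_pos ha, if_pos hb, mul_one]
  · intro h _ hh
    rw [coeff_sg, coeff_sg]
    by_cases h1 : h ∈ N
    · by_cases h2 : h⁻¹ * g ∈ M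
      · exfalso
        have := huniq (⟨h, h1⟩, ⟨h⁻¹ * g, h2⟩) (by simp)
        apply hh
        have := congrArg (fun x => (x.1 : G)) this
        exact this
      · simp [h2]
    · simp [h1]
  · simp

/-- The combinatorial data: a set `D` in an abelian group of order `v²` whose quotients `a b⁻¹`
represent each element outside of `⋃ N i` exactly once and no other nonidentity element. -/
structure IsTH {ι : Type*} [Fintype ι] (k : ℕ) (N : ι → Subgroup G) (D : Finset G) : Prop where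
  k3 : 3 ≤ k
  cardI : Fintype.card ι = 2 * k
  cardN : ∀ i, Nat.card (N i) = k ^ 2 - k + 1
  cardG : Nat.card G = (k ^ 2 - k + 1) ^ 2
  disj : ∀ i j, i ≠ j → Disjoint (N i) (N j)
  cardD : D.card = (k - 1) ^ 2
  diff0 : ∀ g, g ≠ 1 → (∃ i, g ∈ N i) → ∀ a ∈ D, ∀ b ∈ D, a * b⁻¹ ≠ g
  diff1 : ∀ g, g ≠ 1 → (∀ i, g ∉ N i) → ((D ×ˢ D).filter (fun p => p.1 * p.2⁻¹ = g)).card = 1

variable {ι : Type*} [Fintype ι] {k : ℕ} {N : ι → Subgroup G} {D : Finset G}

lemma IsTH.vcast (h : IsTH k N D) : ((k ^ 2 - k + 1 : ℕ) : ℤ) = (k : ℤ) ^ 2 - k + 1 := by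
  have : k ≤ k ^ 2 := by nlinarith [h.k3]
  push_cast [Nat.cast_sub this]
  ring

/-- The sum of the subgroup indicators. -/
noncomputable def SS (N : ι → Subgroup G) : MonoidAlgebra ℤ G := ∑ i, sg (N i)

lemma inv'_SS : inv' ℤ (SS N) = SS N := by
  rw [SS, map_sum]; exact Finset.sum_congr rfl fun i _ => inv'_sg _

lemma coeff_SS (g : G) : (SS N).coeff g = ∑ i, (sg (N i)).coeff g := by
  rw [SS, coeff_sum, Finsupp.finsetSum_apply]

lemma IsTH.mul_of_ne (h : IsTH k N D) {i j : ι} (hij : i ≠ j) : sg (N i) * sg (N j) = Gam G :=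
  sg_mul_compl _ _ (h.disj i j hij) (by rw [h.cardN, h.cardN, h.cardG]; ring)

lemma IsTH.SS_mul_sg (h : IsTH k N D) (i : ι) :
    SS N * sg (N i) = ((k : MonoidAlgebra ℤ G) ^ 2 - k + 1) * sg (N i) + (2 * k - 1) * Gam G := by
  classical
  rw [SS, Finset.sum_mul, ← Finset.add_sum_erase _ _ (Finset.mem_univ i), sg_mul_self, h.cardN,
    h.vcast, Finset.sum_congr rfl (g := fun _ => Gam G)
      (fun j hj => h.mul_of_ne (Finset.ne_of_mem_erase hj)), Finset.sum_const,
    Finset.card_erase_of_mem (Finset.mem_univ i), Finset.card_univ, h.cardI, nsmul_eq_mul]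
  have h3 := h.k3
  push_cast [Nat.cast_sub (show 1 ≤ 2 * k by omega)]
  ring

lemma IsTH.SS_mul_SS (h : IsTH k N D) :
    SS N * SS N = ((k : MonoidAlgebra ℤ G) ^ 2 - k + 1) * SS N + 2 * k * (2 * k - 1) * Gam G := by
  conv_lhs => rw [show SS N * SS N = SS N * ∑ i, sg (N i) from rfl]
  rw [Finset.mul_sum, Finset.sum_congr rfl (fun i _ => h.SS_mul_sg i), Finset.sum_add_distrib,
    ← Finset.mul_sum, Finset.sum_const, Finset.card_univ, h.cardI, nsmul_eq_mul]
  push_cast
  rw [SS]
  ring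

lemma IsTH.SS_mul_Gam (h : IsTH k N D) :
    SS N * Gam G = 2 * k * ((k : MonoidAlgebra ℤ G) ^ 2 - k + 1) * Gam G := by
  rw [SS, Finset.sum_mul, Finset.sum_congr rfl (g := fun _ =>
    ((k : MonoidAlgebra ℤ G) ^ 2 - k + 1) * Gam G), Finset.sum_const, Finset.card_univ, h.cardI,
    nsmul_eq_mul]
  · push_cast; ring
  · intro i _
    rw [sg_mul_Gam, h.cardN, h.vcast]
    push_cast; ring

lemma IsTH.Gam_mul (h : IsTH k N D) :
    Gam G * Gam G = ((k : MonoidAlgebra ℤ G) ^ 2 - k + 1) ^ 2 * Gam G := by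
  rw [Gam_mul_Gam, ← Nat.card_eq_fintype_card, h.cardG, Nat.cast_pow, h.vcast]
  push_cast; ring

lemma IsTH.D_mul_Gam (h : IsTH k N D) :
    ind D * Gam G = ((k : MonoidAlgebra ℤ G) - 1) ^ 2 * Gam G := by
  rw [ind_mul_Gam, h.cardD]
  have h3 := h.k3
  push_cast [Nat.cast_sub (show 1 ≤ k by omega)]
  ring

lemma IsTH.D'_mul_Gam (h : IsTH k N D) :
    inv' ℤ (ind D) * Gam G = ((k : MonoidAlgebra ℤ G) - 1) ^ 2 * Gam G := by
  have := congrArg (inv' ℤ) h.D_mul_Gam
  rw [map_mul, inv'_Gam] at this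
  rw [this]
  simp [map_mul, inv'_Gam]

lemma IsTH.D_mul_D' (h : IsTH k N D) :
    ind D * inv' ℤ (ind D) = (k : MonoidAlgebra ℤ G) ^ 2 + Gam G - SS N := by
  classical
  ext g
  have e1 : (ind D * inv' ℤ (ind D)).coeff g =
      (((D ×ˢ D).filter (fun p => p.1 * p.2⁻¹ = g)).card : ℤ) := by
    rw [coeff_mul_fin]
    simp only [coeff_inv', coeff_ind]
    rw [Finset.card_filter, Finset.sum_product]
    push_cast
    rw [← Finset.sum_filter_add_sum_filter_not Finset.univ (· ∈ D)]
    rw [show (Finset.univ.filter (· ∈ D)) = D by ext; simp]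
    rw [Finset.sum_eq_zero (s := Finset.univ.filter (fun x => ¬ x ∈ D)) (by
      intro x hx; simp at hx; simp [hx]), add_zero]
    refine Finset.sum_congr rfl fun x hx => ?_
    simp only [hx, if_true, one_mul]
    rw [Finset.sum_boole]
    have : (D.filter (fun y => x * y⁻¹ = g)) = if (x⁻¹ * g)⁻¹ ∈ D then {(x⁻¹ * g)⁻¹} else ∅ := by
      ext y
      split_ifs with h1
      · simp only [Finset.mem_filter, Finset.mem_singleton]
        constructor
        · rintro ⟨_, rfl⟩; simp
        · rintro rfl; simp [h1] at h1 ⊢; exact h1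
      · simp only [Finset.mem_filter, Finset.notMem_empty, iff_false, not_and]
        rintro hy rfl
        apply h1; simpa using hy
    rw [this]
    split_ifs <;> simp
  rw [e1]
  have e2 : ((k : MonoidAlgebra ℤ G) ^ 2 + Gam G - SS N).coeff g =
      (if g = 1 then (k : ℤ) ^ 2 else 0) + 1 - ∑ i, (sg (N i)).coeff g := by
    rw [coeff_sub, coeff_add, Finsupp.sub_apply, Finsupp.add_apply, coeff_Gam, coeff_SS]
    congr 2
    rw [show ((k : MonoidAlgebra ℤ G) ^ 2) = ((k ^ 2 : ℕ) : MonoidAlgebra ℤ G) * 1 by push_cast; ring]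
    rw [coeff_natCast_mul, one_def, coeff_single, Finsupp.single_apply]
    simp [eq_comm]
  rw [e2]
  by_cases hg : g = 1
  · subst hg
    have e3 : ((D ×ˢ D).filter (fun p => p.1 * p.2⁻¹ = 1)).card = D.card := by
      rw [← Finset.card_image_of_injective D (f := fun x => (x, x)) (by
        intro a b hab; simpa using hab)]
      congr 1
      ext ⟨a, b⟩
      simp only [Finset.mem_filter, Finset.mem_product, Finset.mem_image, Prod.mk.injEq,
        mul_inv_eq_one]
      constructor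
      · rintro ⟨⟨h1, h2⟩, h3⟩; exact ⟨a, h1, rfl, h3⟩
      · rintro ⟨x, hx, rfl, rfl⟩; exact ⟨⟨hx, hx⟩, rfl⟩
    rw [e3, h.cardD]
    simp only [coeff_sg, (N _).one_mem, if_true, Finset.sum_const, Finset.card_univ, h.cardI]
    have h3 := h.k3
    push_cast [Nat.cast_sub (show 1 ≤ k by omega)]
    simp
    ring
  · rw [if_neg hg]
    by_cases hi : ∃ i, g ∈ N i
    · have e3 : ((D ×ˢ D).filter (fun p => p.1 * p.2⁻¹ = g)) = ∅ := by
        rw [Finset.filter_eq_empty_iff]
        rintro ⟨a, b⟩ hab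
        rw [Finset.mem_product] at hab
        exact h.diff0 g hg hi a hab.1 b hab.2
      rw [e3]
      obtain ⟨i, hi⟩ := hi
      rw [Finset.sum_eq_single i]
      · simp [coeff_sg, hi]
      · intro j _ hj
        rw [coeff_sg, if_neg]
        intro hgj
        exact hg (by simpa using Subgroup.disjoint_def.mp (h.disj j i hj) hgj hi)
      · simp
    · push Not at hi
      rw [h.diff1 g hg hi]
      simp [coeff_sg, hi]

end Pool.Agent.U113.TH
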