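import Mathlib
import Pool.Agent.U113.TH.Core

/-!
# Self-conjugate primes cannot divide `k - 1`, and only `2 ∥ k` can be a self-conjugate divisor of `k`
-/

set_option autoImplicit false
set_option linter.unusedSectionVars false

namespace Pool.Agent.U113.TH

open MonoidAlgebra Finset

variable {G : Type*} [CommGroup G] [Fintype G] [DecidableEq G]
variable {ι : Type*} [Fintype ι] {k : ℕ} {N : ι → Subgroup G} {D : Finset G}

/-- `Y = D (1 - ∑ N i) + (2 k - 1) G`. -/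
noncomputable def YY (k : ℕ) (N : ι → Subgroup G) (D : Finset G) : MonoidAlgebra ℤ G :=
  ind D * (1 - SS N) + (2 * k - 1) * Gam G

lemma IsTH.YY_mul (h : IsTH k N D) :
    YY k N D * inv' ℤ (YY k N D) = (k : MonoidAlgebra ℤ G) ^ 2 + k ^ 2 * (k - 2) * SS N +
      (k ^ 4 + 2 * k ^ 3 - k ^ 2) * Gam G := by
  have f1 := h.D_mul_D'
  have f2 := h.SS_mul_SS
  have f3 := h.SS_mul_Gam
  have f4 := h.Gam_mul
  have f5 := h.D_mul_Gam
  have f6 := h.D'_mul_Gam
  have e : inv' ℤ (YY k N D) = inv' ℤ (ind D) * (1 - SS N) + (2 * k - 1) * Gam G := by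
    simp only [YY, map_add, map_mul, map_sub, map_one, inv'_SS, inv'_Gam, map_natCast, map_ofNat]
  rw [e, YY]
  set K : MonoidAlgebra ℤ G := (k : MonoidAlgebra ℤ G)
  set S := SS N
  set Γ := Gam G
  set d := ind D
  set d' := inv' ℤ d
  linear_combination (1 - S) ^ 2 * f1 + (2 * K - 1) * (1 - S) * f5 + (2 * K - 1) * (1 - S) * f6 +
    (2 * K - 1) ^ 2 * f4 + (K ^ 2 + Γ - S) * f2 +
    ((K ^ 2 - K + 1 - 2) - 2 * K * (2 * K - 1) - 2 * (2 * K - 1) * (K - 1) ^ 2) * f3 +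
    2 * K * (2 * K - 1) * f4 - (K ^ 2 - K + 1 - 2) * f2

lemma IsTH.YY_mul_Gam (h : IsTH k N D) :
    YY k N D * Gam G = (k : MonoidAlgebra ℤ G) ^ 4 * Gam G := by
  have f3 := h.SS_mul_Gam
  have f4 := h.Gam_mul
  have f5 := h.D_mul_Gam
  rw [YY]
  set K : MonoidAlgebra ℤ G := (k : MonoidAlgebra ℤ G)
  set S := SS N
  set Γ := Gam G
  set d := ind D
  linear_combination (1 - S) * f5 + (2 * K - 1) * f4 - (K - 1) ^ 2 * f3

lemma IsTH.sum_YY (h : IsTH k N D) : ∑ g, (YY k N D).coeff g = (k : ℤ) ^ 4 := by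
  have := congrArg (fun X => X.coeff 1) h.YY_mul_Gam
  rw [mul_Gam, coeff_intCast_mul, coeff_Gam, mul_one] at this
  rw [this, show ((k : MonoidAlgebra ℤ G) ^ 4) = ((k ^ 4 : ℕ) : MonoidAlgebra ℤ G) by push_cast; rfl,
    coeff_natCast_mul, coeff_Gam]
  push_cast; ring

lemma IsTH.coeff_YY_mul (h : IsTH k N D) (g : G) :
    (YY k N D * inv' ℤ (YY k N D)).coeff g = (if g = 1 then (k : ℤ) ^ 2 else 0) +
      k ^ 2 * (k - 2) * (∑ i, (sg (N i)).coeff g) + (k ^ 4 + 2 * k ^ 3 - k ^ 2) := by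
  rw [h.YY_mul, coeff_add, coeff_add, Finsupp.add_apply, Finsupp.add_apply]
  congr 1
  · congr 1
    · rw [show ((k : MonoidAlgebra ℤ G) ^ 2) = ((k ^ 2 : ℕ) : MonoidAlgebra ℤ G) * 1 by push_cast; ring]
      rw [coeff_natCast_mul, one_def, coeff_single, Finsupp.single_apply]
      simp [eq_comm]
    · rw [show ((k : MonoidAlgebra ℤ G) ^ 2 * (k - 2)) = ((k ^ 2 * (k - 2) : ℤ) : MonoidAlgebra ℤ G) by
        push_cast; rfl, coeff_intCast_mul, coeff_SS]
  · rw [show ((k : MonoidAlgebra ℤ G) ^ 4 + 2 * k ^ 3 - k ^ 2) =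
      ((k ^ 4 + 2 * k ^ 3 - k ^ 2 : ℤ) : MonoidAlgebra ℤ G) by push_cast; rfl,
      coeff_intCast_mul, coeff_Gam, mul_one]

lemma IsTH.sum_YY_sq (h : IsTH k N D) :
    ∑ g, (YY k N D).coeff g ^ 2 = (k : ℤ) ^ 3 * (3 * k - 2) := by
  have h1 := h.coeff_YY_mul 1
  rw [coeff_mul_fin] at h1
  simp only [coeff_inv', mul_one, inv_inv, if_true] at h1
  have h2 : ∑ g, (YY k N D).coeff g ^ 2 = ∑ g, (YY k N D).coeff g * (YY k N D).coeff g :=
    Finset.sum_congr rfl fun g _ => sq _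
  rw [h2, h1]
  simp only [coeff_sg, (N _).one_mem, if_true, Finset.sum_const, Finset.card_univ, h.cardI]
  simp
  ring

lemma IsTH.coeff_D_mul_sg (h : IsTH k N D) (i : ι) (g : G) :
    (ind D * sg (N i)).coeff g ≤ 1 := by
  classical
  rw [coeff_mul_fin]
  simp only [coeff_ind, coeff_sg]
  have : ∑ x : G, ((if x ∈ D then (1 : ℤ) else 0) * if x⁻¹ * g ∈ N i then 1 else 0) =
      ((Finset.univ.filter (fun x => x ∈ D ∧ x⁻¹ * g ∈ N i)).card : ℤ) := by
    rw [Finset.card_filter]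
    push_cast
    refine Finset.sum_congr rfl fun x _ => ?_
    by_cases h1 : x ∈ D <;> by_cases h2 : x⁻¹ * g ∈ N i <;> simp [h1, h2]
  rw [this]
  have : (Finset.univ.filter (fun x => x ∈ D ∧ x⁻¹ * g ∈ N i)).card ≤ 1 := by
    rw [Finset.card_le_one]
    intro a ha b hb
    simp only [Finset.mem_filter, Finset.mem_univ, true_and] at ha hb
    by_contra hab
    refine h.diff0 (a * b⁻¹) (by rwa [Ne, mul_inv_eq_one]) ⟨i, ?_⟩ a ha.1 b hb.1 rfl
    have := (N i).mul_mem hb.2 ((N i).inv_mem ha.2)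
    have e : b⁻¹ * g * (a⁻¹ * g)⁻¹ = a * b⁻¹ := by
      rw [mul_inv_rev, inv_inv]
      rw [mul_assoc, mul_inv_cancel_left, mul_comm]
    rwa [e] at this
  exact_mod_cast this

lemma IsTH.coeff_D_mul_sg_self (h : IsTH k N D) (i : ι) (g : G) (hg : g ∈ D) :
    (ind D * sg (N i)).coeff g = 1 := by
  classical
  apply le_antisymm (h.coeff_D_mul_sg i g)
  rw [coeff_mul_fin]
  have := Finset.single_le_sum (s := Finset.univ)
    (f := fun x : G => (ind D).coeff x * (sg (N i)).coeff (x⁻¹ * g)) (by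
      intro x _
      simp only [coeff_ind, coeff_sg]
      split_ifs <;> simp) (Finset.mem_univ g)
  refine le_trans ?_ this
  simp [coeff_ind, coeff_sg, hg, (N i).one_mem]

lemma IsTH.YY_ge (h : IsTH k N D) (g : G) : -1 ≤ (YY k N D).coeff g := by
  have e : YY k N D = ind D - ∑ i, ind D * sg (N i) + ((2 * k - 1 : ℤ) : MonoidAlgebra ℤ G) * Gam G := by
    rw [YY, SS, mul_sub, mul_one, Finset.mul_sum]
    push_cast; rfl
  rw [e, coeff_add, coeff_sub, Finsupp.add_apply, Finsupp.sub_apply, coeff_sum,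
    Finsupp.finsetSum_apply, coeff_intCast_mul, coeff_Gam, mul_one]
  have h1 : ∑ i, (ind D * sg (N i)).coeff g ≤ ∑ i : ι, (1 : ℤ) :=
    Finset.sum_le_sum fun i _ => h.coeff_D_mul_sg i g
  rw [Finset.sum_const, Finset.card_univ, h.cardI] at h1
  have h2 : 0 ≤ (ind D).coeff g := by rw [coeff_ind]; split_ifs <;> simp
  simp at h1
  linarith

/-- **Part B.** If `r` is a self-conjugate prime and `r ^ c ∣ k` then `r ^ c ≤ 2`. -/
theorem IsTH.partB (h : IsTH k N D) {r j : ℕ} (hr : r.Prime) (hj : 1 ≤ j)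
    (hsc : ∀ g : G, g ^ (r ^ j) = g⁻¹) (c : ℕ) (hc : r ^ c ∣ k) : r ^ c ≤ 2 := by
  by_contra hM
  push Not at hM
  have hk3 : (3 : ℤ) ≤ k := by exact_mod_cast h.k3
  have hdiv : ∀ g, ((r ^ c : ℕ) : ℤ) ∣ (YY k N D).coeff g := by
    apply dvd_of_selfConj hr hj hsc c
    intro g
    rw [h.coeff_YY_mul]
    have hk2 : ((r ^ (2 * c) : ℕ) : ℤ) ∣ (k : ℤ) ^ 2 := by
      have : r ^ (2 * c) ∣ k ^ 2 := by
        rw [mul_comm, pow_mul]; exact pow_dvd_pow_of_dvd hc 2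
      exact_mod_cast this
    refine dvd_add (dvd_add ?_ ?_) ?_
    · split_ifs
      · exact hk2
      · exact dvd_zero _
    · exact Dvd.dvd.mul_right (Dvd.dvd.mul_right hk2 _) _
    · have : (k : ℤ) ^ 4 + 2 * k ^ 3 - k ^ 2 = k ^ 2 * (k ^ 2 + 2 * k - 1) := by ring
      rw [this]
      exact Dvd.dvd.mul_right hk2 _
  set M : ℤ := ((r ^ c : ℕ) : ℤ) with hMdef
  have hM' : 3 ≤ r ^ c := hM
  have hM3 : (3 : ℤ) ≤ M := by rw [hMdef]; exact_mod_cast hM'
  have hpos : ∀ g, 0 ≤ (YY k N D).coeff g * ((YY k N D).coeff g - M) := by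
    intro g
    have h1 := h.YY_ge g
    obtain ⟨t, ht⟩ := hdiv g
    rw [ht] at h1 ⊢
    have ht0 : 0 ≤ t := by
      by_contra hneg
      push Not at hneg
      nlinarith
    rcases ht0.eq_or_lt with h0 | h0
    · rw [← h0]; simp
    · have : M * t * (M * t - M) = M ^ 2 * (t * (t - 1)) := by ring
      rw [this]
      exact mul_nonneg (sq_nonneg _) (mul_nonneg (by omega) (by omega))
  have hsum : 0 ≤ ∑ g, (YY k N D).coeff g * ((YY k N D).coeff g - M) :=
    Finset.sum_nonneg fun g _ => hpos g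
  have e : ∑ g, (YY k N D).coeff g * ((YY k N D).coeff g - M) =
      ∑ g, (YY k N D).coeff g ^ 2 - (∑ g, (YY k N D).coeff g) * M := by
    rw [Finset.sum_mul, ← Finset.sum_sub_distrib]
    exact Finset.sum_congr rfl fun g _ => by ring
  rw [e, h.sum_YY, h.sum_YY_sq] at hsum
  have h4 : 0 < (k : ℤ) ^ 3 := by positivity
  have h5 : (k : ℤ) ^ 3 * (3 * k - 2) - k ^ 4 * M = k ^ 3 * (3 * k - 2 - k * M) := by ring
  rw [h5] at hsum
  have h6 : 0 ≤ 3 * (k : ℤ) - 2 - k * M := by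
    by_contra hneg
    push Not at hneg
    nlinarith
  nlinarith

/-- **Part A.** No self-conjugate prime divides `k - 1`. -/
theorem IsTH.partA (h : IsTH k N D) {r j : ℕ} (hr : r.Prime) (hj : 1 ≤ j)
    (hsc : ∀ g : G, g ^ (r ^ j) = g⁻¹) (hc : (r : ℤ) ∣ (k : ℤ) - 1) : False := by
  have hk3 := h.k3
  have hne : Nonempty ι := by
    rw [← Fintype.card_pos_iff, h.cardI]; omega
  obtain ⟨i⟩ := hne
  have f1 := h.D_mul_D'
  have f2 := h.SS_mul_sg i
  have f3 : sg (N i) * Gam G = ((k : MonoidAlgebra ℤ G) ^ 2 - k + 1) * Gam G := by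
    rw [sg_mul_Gam, h.cardN, h.vcast]; push_cast; ring
  have f4 : sg (N i) * sg (N i) = ((k : MonoidAlgebra ℤ G) ^ 2 - k + 1) * sg (N i) := by
    rw [sg_mul_self, h.cardN, h.vcast]; push_cast; ring
  have key : (ind D * sg (N i)) * inv' ℤ (ind D * sg (N i)) =
      (((k : ℤ) ^ 2 - k + 1 : ℤ) : MonoidAlgebra ℤ G) * (((k - 1 : ℤ) : MonoidAlgebra ℤ G) *
        (sg (N i) + ((k - 2 : ℤ) : MonoidAlgebra ℤ G) * Gam G)) := by
    rw [map_mul, inv'_sg]
    push_cast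
    set K : MonoidAlgebra ℤ G := (k : MonoidAlgebra ℤ G)
    set S := SS N
    set Γ := Gam G
    set d := ind D
    set d' := inv' ℤ d
    set n := sg (N i)
    linear_combination (n * n) * f1 + (K ^ 2 + Γ - S) * f4 + (K ^ 2 - K + 1) * f3 -
      (K ^ 2 - K + 1) * f2
  have hX := dvd_of_selfConj_one hr hj hsc (ind D * sg (N i)) (by
    intro g
    rw [key, coeff_intCast_mul, coeff_intCast_mul]
    exact Dvd.dvd.mul_left (Dvd.dvd.mul_right hc _) _)
  have hDne : D.Nonempty := by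
    rw [← Finset.card_pos, h.cardD]
    have : 0 < k - 1 := by omega
    positivity
  obtain ⟨g, hg⟩ := hDne
  have h1 := hX g
  rw [h.coeff_D_mul_sg_self i g hg] at h1
  have := Int.le_of_dvd one_pos h1
  have := hr.two_le
  omega

end Pool.Agent.U113.TH
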