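import Mathlib
import Pool.Agent.U113.TH.Core2
import Pool.Agent.U113.TH.Arith

/-!
# `v = k² - k + 1` is a prime power, and the contradiction
-/

set_option autoImplicit false
set_option linter.unusedSectionVars false

namespace Pool.Agent.U113.TH

open Finset

lemma tors_coprime {A : Type*} [CommGroup A] [Finite A] {s t : ℕ} (hst : Nat.Coprime s t) :
    Nat.Coprime (Nat.card (powMonoidHom s : A →* A).ker) t := by
  rw [Nat.coprime_iff_gcd_eq_one]
  by_contra hne
  obtain ⟨q, hq, hqd⟩ := Nat.exists_prime_and_dvd hne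
  have h1 : q ∣ Nat.card (powMonoidHom s : A →* A).ker := dvd_trans hqd (Nat.gcd_dvd_left _ _)
  have h2 : q ∣ t := dvd_trans hqd (Nat.gcd_dvd_right _ _)
  have : Fact q.Prime := ⟨hq⟩
  obtain ⟨x, hx⟩ := exists_prime_orderOf_dvd_card' q h1
  have hxs : (x : A) ^ s = 1 := x.2
  have hox : orderOf (x : A) = q := by rw [Subgroup.orderOf_coe, hx]
  have h3 : q ∣ s := by rw [← hox]; exact orderOf_dvd_of_pow_eq_one hxs
  exact Nat.Prime.not_dvd_one hq (by
    have := Nat.dvd_gcd h3 h2
    rwa [hst] at this)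

lemma tors_dvd {A : Type*} [CommGroup A] [Finite A] {s t : ℕ} (hst : Nat.Coprime s t)
    (hA : Nat.card A = s * t) : Nat.card (powMonoidHom s : A →* A).ker ∣ s := by
  have h1 : Nat.card (powMonoidHom s : A →* A).ker ∣ s * t := by
    rw [← hA]; exact Subgroup.card_subgroup_dvd_card _
  exact (tors_coprime hst).dvd_of_dvd_mul_right h1

lemma tors_ge {A : Type*} [CommGroup A] [Finite A] {s t : ℕ} (hst : Nat.Coprime s t)
    (hA : Nat.card A = s * t) : s ≤ Nat.card (powMonoidHom s : A →* A).ker := by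
  have hpos : 0 < s * t := by rw [← hA]; exact Nat.card_pos
  have ht : 0 < t := Nat.pos_of_mul_pos_left hpos |> fun h => by
    rcases Nat.eq_zero_or_pos t with h0 | h0
    · rw [h0, mul_zero] at hpos; exact absurd hpos (lt_irrefl _)
    · exact h0
  have h1 : Nat.card (powMonoidHom t : A →* A).ker ∣ t :=
    tors_dvd hst.symm (by rw [hA, mul_comm])
  have h2 : Nat.card (powMonoidHom t : A →* A).ker * Nat.card (powMonoidHom t : A →* A).range = s * t := by
    rw [← hA, ← Subgroup.index_ker, Subgroup.card_mul_index]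
  have h3 : (powMonoidHom t : A →* A).range ≤ (powMonoidHom s : A →* A).ker := by
    rintro _ ⟨x, rfl⟩
    rw [MonoidHom.mem_ker, powMonoidHom_apply, powMonoidHom_apply, ← pow_mul, mul_comm, ← hA]
    exact pow_card_eq_one'
  have h4 : Nat.card (powMonoidHom t : A →* A).range ≤ Nat.card (powMonoidHom s : A →* A).ker :=
    Nat.card_le_card_of_injective _ (Subgroup.inclusion_injective h3)
  have h5 := Nat.le_of_dvd ht h1
  have h6 : s * t ≤ t * Nat.card (powMonoidHom s : A →* A).ker := by
    rw [← h2]; exact Nat.mul_le_mul h5 h4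
  have h7 : t * s ≤ t * Nat.card (powMonoidHom s : A →* A).ker := by rwa [mul_comm t s]
  exact Nat.le_of_mul_le_mul_left h7 ht

variable {G : Type*} [CommGroup G] [Fintype G] [DecidableEq G]
variable {ι : Type*} [Fintype ι] {k : ℕ} {N : ι → Subgroup G} {D : Finset G}

lemma IsTH.pow_v (h : IsTH k N D) (g : G) : g ^ (k ^ 2 - k + 1) = 1 := by
  have hk3 := h.k3
  have hc : 1 < Fintype.card ι := by rw [h.cardI]; omega
  obtain ⟨i, j, hij⟩ := Fintype.exists_pair_of_one_lt_card hc
  have hcomp := Subgroup.isComplement'_of_card_mul_and_disjoint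
    (by rw [h.cardN, h.cardN, h.cardG]; ring) (h.disj i j hij)
  obtain ⟨⟨a, b⟩, hab, -⟩ := hcomp.existsUnique g
  simp only at hab
  have ha : (a : G) ^ (k ^ 2 - k + 1) = 1 := by
    have : (⟨a, a.2⟩ : N i) ^ (Nat.card (N i)) = 1 := pow_card_eq_one'
    rw [h.cardN] at this
    simpa using congrArg (fun x : N i => (x : G)) this
  have hb : (b : G) ^ (k ^ 2 - k + 1) = 1 := by
    have : (⟨b, b.2⟩ : N j) ^ (Nat.card (N j)) = 1 := pow_card_eq_one'
    rw [h.cardN] at this
    simpa using congrArg (fun x : N j => (x : G)) this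
  rw [← hab, mul_pow, ha, hb, mul_one]

lemma IsTH.selfConj (h : IsTH k N D) {r j : ℕ}
    (hd : ((k ^ 2 - k + 1 : ℕ) : ℤ) ∣ (r : ℤ) ^ j + 1) (g : G) : g ^ (r ^ j) = g⁻¹ := by
  have : k ^ 2 - k + 1 ∣ r ^ j + 1 := by exact_mod_cast hd
  obtain ⟨c, hc⟩ := this
  rw [eq_inv_iff_mul_eq_one, ← pow_succ, hc, pow_mul, h.pow_v, one_pow]

lemma IsTH.le_of_coprime (h : IsTH k N D) {s t : ℕ} (hst : Nat.Coprime s t)
    (hv : k ^ 2 - k + 1 = s * t) (hs : 1 < s) : 2 * k ≤ s + 1 := by
  classical
  have hG : Nat.card (powMonoidHom s : G →* G).ker ∣ s ^ 2 := by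
    have h1 : Nat.card (powMonoidHom s : G →* G).ker ∣ s ^ 2 * t ^ 2 := by
      have : s ^ 2 * t ^ 2 = Nat.card G := by rw [h.cardG, hv]; ring
      rw [this]; exact Subgroup.card_subgroup_dvd_card _
    exact ((tors_coprime hst).pow_right 2).dvd_of_dvd_mul_right h1
  have hGle : Nat.card (powMonoidHom s : G →* G).ker ≤ s ^ 2 := Nat.le_of_dvd (by positivity) hG
  let B : Finset G := Finset.univ.filter (fun x => x ^ s = 1 ∧ x ≠ 1)
  let A : ι → Finset G := fun i => Finset.univ.filter (fun x => x ∈ N i ∧ x ^ s = 1 ∧ x ≠ 1)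
  have hBcard : B.card + 1 ≤ s ^ 2 := by
    refine le_trans ?_ hGle
    rw [Nat.card_eq_fintype_card, Fintype.card_subtype]
    have : (insert 1 B) = Finset.univ.filter (fun x => x ∈ (powMonoidHom s : G →* G).ker) := by
      ext x
      simp only [B, Finset.mem_insert, Finset.mem_filter, Finset.mem_univ, true_and,
        MonoidHom.mem_ker, powMonoidHom_apply]
      constructor
      · rintro (rfl | h1)
        · simp
        · exact h1.1
      · intro h1
        by_cases hx : x = 1
        · exact Or.inl hx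
        · exact Or.inr ⟨h1, hx⟩
    rw [← this, Finset.card_insert_of_notMem (by simp [B])]
  have hAcard : ∀ i, s ≤ (A i).card + 1 := by
    intro i
    have h1 := tors_ge (A := N i) hst (by rw [h.cardN, hv])
    refine le_trans h1 ?_
    rw [Nat.card_eq_fintype_card, Fintype.card_subtype]
    have h2 : (insert 1 (A i)) = Finset.image (Subtype.val : N i → G) (Finset.univ.filter
        (fun x : N i => x ∈ (powMonoidHom s : N i →* N i).ker)) := by
      ext x
      simp only [A, Finset.mem_insert, Finset.mem_filter, Finset.mem_univ, true_and,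
        MonoidHom.mem_ker, powMonoidHom_apply, Finset.mem_image, Subtype.exists]
      constructor
      · rintro (rfl | h1)
        · exact ⟨1, (N i).one_mem, by ext; simp, rfl⟩
        · exact ⟨x, h1.1, by ext; simpa using h1.2.1, rfl⟩
      · rintro ⟨y, hy, h1', rfl⟩
        by_cases hx : y = 1
        · exact Or.inl hx
        · refine Or.inr ⟨hy, ?_, hx⟩
          simpa using congrArg (fun x : N i => (x : G)) h1'
    rw [← Finset.card_image_of_injective _ (Subtype.val_injective (p := fun x => x ∈ N i)), ← h2,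
      Finset.card_insert_of_notMem (by simp [A])]
  have hdisj : ∀ i ∈ (Finset.univ : Finset ι), ∀ j ∈ (Finset.univ : Finset ι), i ≠ j →
      Disjoint (A i) (A j) := by
    intro i _ j _ hij
    rw [Finset.disjoint_left]
    intro x hx hy
    simp only [A, Finset.mem_filter, Finset.mem_univ, true_and] at hx hy
    exact hx.2.2 (Subgroup.disjoint_def.mp (h.disj i j hij) hx.1 hy.1)
  have hsub : Finset.univ.biUnion A ⊆ B := by
    intro x hx
    simp only [A, B, Finset.mem_biUnion, Finset.mem_filter, Finset.mem_univ, true_and] at hx ⊢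
    obtain ⟨i, hi⟩ := hx
    exact hi.2
  have h1 : ∑ i, (A i).card ≤ B.card := by
    rw [← Finset.card_biUnion hdisj]
    exact Finset.card_le_card hsub
  have h2 : 2 * k * (s - 1) ≤ ∑ i, (A i).card := by
    have : ∑ i : ι, (s - 1) ≤ ∑ i, (A i).card :=
      Finset.sum_le_sum fun i _ => by have := hAcard i; omega
    rw [Finset.sum_const, Finset.card_univ, h.cardI, smul_eq_mul] at this
    exact this
  have h3 : 2 * k * (s - 1) ≤ (s + 1) * (s - 1) := by
    obtain ⟨m, rfl⟩ : ∃ m, s = m + 2 := ⟨s - 2, by omega⟩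
    have e1 : m + 2 - 1 = m + 1 := by omega
    rw [e1] at h2 ⊢
    nlinarith
  exact Nat.le_of_mul_le_mul_right h3 (by omega)

lemma IsTH.isPrimePow (h : IsTH k N D) : IsPrimePow (k ^ 2 - k + 1) := by
  have hk3 := h.k3
  have hkk : k ≤ k ^ 2 := by nlinarith
  set v := k ^ 2 - k + 1 with hvdef
  have hvk : v < k ^ 2 := by omega
  have hv1 : 1 < v := by
    have : 3 * k ≤ k ^ 2 := by nlinarith
    omega
  have hv0 : v ≠ 0 := by omega
  set p := v.minFac with hp
  have hpp : p.Prime := Nat.minFac_prime (by omega)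
  have hpv : p ∣ v := Nat.minFac_dvd v
  set s := ordProj[p] v
  set t := ordCompl[p] v
  have hst : s * t = v := Nat.ordProj_mul_ordCompl_eq_self v p
  have hcop : Nat.Coprime s t := (Nat.coprime_ordCompl hpp hv0).pow_left _
  have hs1 : 1 < s := by
    have : 1 ≤ v.factorization p := (hpp.dvd_iff_one_le_factorization hv0).mp hpv
    exact Nat.one_lt_pow (by omega) hpp.one_lt
  have ht0 : 0 < t := Nat.ordCompl_pos p hv0
  by_cases ht1 : t = 1
  · rw [ht1, mul_one] at hst
    rw [← hst]
    have : 1 ≤ v.factorization p := (hpp.dvd_iff_one_le_factorization hv0).mp hpv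
    exact (hpp.isPrimePow).pow (by omega)
  · exfalso
    have ht2 : 1 < t := by omega
    have h1 := h.le_of_coprime hcop hst.symm hs1
    have h2 := h.le_of_coprime hcop.symm (by rw [mul_comm]; exact hst.symm) ht2
    nlinarith

/-- There is no such configuration. -/
theorem IsTH.false (h : IsTH k N D) : False := by
  refine arith h.k3 h.isPrimePow ?_ ?_
  · intro r j c hr hj hd hc
    exact h.partB hr hj (h.selfConj hd) c hc
  · intro r j hr hj hd hc
    exact h.partA hr hj (h.selfConj hd) hc

end Pool.Agent.U113.TH
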