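import Mathlib
import Pool.Agent.U113.TH.Orbits
import Pool.Agent.U113.TH.PrimePow

/-!
# Type (h) does not exist
-/

set_option autoImplicit false
set_option linter.unusedSectionVars false

namespace Pool.Agent.U113.TH

open Configuration Configuration.ProjectivePlane Finset
open scoped Classical

lemma false_of_comm {G : Type} [Group G] [Fintype G] (hcomm : ∀ a b : G, a * b = b * a)
    {ι : Type} [Fintype ι] {k : ℕ} {N : ι → Subgroup G} {D : Finset G}
    (k3 : 3 ≤ k)
    (cardI : Fintype.card ι = 2 * k)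
    (cardN : ∀ i, Nat.card (N i) = k ^ 2 - k + 1)
    (cardG : Nat.card G = (k ^ 2 - k + 1) ^ 2)
    (disj : ∀ i j, i ≠ j → Disjoint (N i) (N j))
    (cardD : D.card = (k - 1) ^ 2)
    (diff0 : ∀ g, g ≠ 1 → (∃ i, g ∈ N i) → ∀ a ∈ D, ∀ b ∈ D, a * b⁻¹ ≠ g)
    (diff1 : ∀ g, g ≠ 1 → (∀ i, g ∉ N i) → ((D ×ˢ D).filter (fun p => p.1 * p.2⁻¹ = g)).card = 1) :
    False := by
  let _ : CommGroup G := { (inferInstance : Group G) with mul_comm := hcomm }
  exact IsTH.false (G := G) (N := N) (D := D) (k := k)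
    ⟨k3, cardI, cardN, cardG, disj, cardD, diff0, diff1⟩

variable {P L : Type} [Membership P L] [ProjectivePlane P L] [Fintype P] [Fintype L]
variable {G : Type} [Group G] [MulAction G P] [MulAction G L] [Fintype G]
variable {k : ℕ} {ι : Type} [Fintype ι] {p0 : P} {x : ι → P}

namespace THOrb

lemma kk (h : THOrb P L G k p0 x) : k ≤ k ^ 2 := by nlinarith [h.k3]

lemma v1 (h : THOrb P L G k p0 x) : 1 < k ^ 2 - k + 1 := by
  have := h.k3
  have : 3 * k ≤ k ^ 2 := by nlinarith
  omega

lemma v_eq (_h : THOrb P L G k p0 x) : k ^ 2 - k + 1 = 1 + k * (k - 1) := by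
  rw [Nat.mul_sub, mul_one, sq, add_comm]

lemma orbc (h : THOrb P L G k p0 x) (i : ι) :
    Nat.card (MulAction.orbit G (x i)) = k ^ 2 - k + 1 := by
  have h1 := card_orbit_mul (G := G) (x i)
  rw [h.st, h.hG] at h1
  have h2 : 0 < k ^ 2 - k + 1 := Nat.succ_pos _
  exact Nat.eq_of_mul_eq_mul_right h2 (by rw [h1]; ring)

lemma ne_bot (h : THOrb P L G k p0 x) (i : ι) : MulAction.stabilizer G (x i) ≠ ⊥ := by
  intro e
  have h1 := h.st i
  rw [e, Subgroup.card_bot] at h1
  have := h.v1
  omega

lemma mem_self (i : ι) : x i ∈ fixP P (MulAction.stabilizer G (x i)) := by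
  rw [mem_fixP]; intro g hg; exact hg

lemma main (h : THOrb P L G k p0 x) (i : ι) :
    (∀ l ∈ fixL L (MulAction.stabilizer G (x i)), bb (fixP P (MulAction.stabilizer G (x i))) l = k) ∧
    (∀ y ∈ fixP P (MulAction.stabilizer G (x i)), aa (fixL L (MulAction.stabilizer G (x i))) y = k) ∧
    (fixP P (MulAction.stabilizer G (x i))).card = k ^ 2 - k + 1 ∧
    (fixL L (MulAction.stabilizer G (x i))).card = k ^ 2 - k + 1 ∧
    (∀ y : P, y ∈ fixP P (MulAction.stabilizer G (x i)) ↔ y ∈ MulAction.orbit G (x i)) := by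
  have hn := h.qr.stab_normal (x i)
  have hx0 : x i ∈ fixP P (MulAction.stabilizer G (x i)) := mem_self i
  obtain ⟨d, hd2, hdk, hb, ha, hcP, hcL⟩ := h.qr.lemmaF' h.ho h.hG _ (h.ne_bot i) hx0
  have hsub : (Finset.univ.filter (fun y : P => y ∈ MulAction.orbit G (x i))) ⊆
      fixP P (MulAction.stabilizer G (x i)) := by
    intro y hy
    rw [Finset.mem_filter] at hy
    obtain ⟨g, rfl⟩ := hy.2
    exact smul_mem_fixP g hx0
  have hoc : (Finset.univ.filter (fun y : P => y ∈ MulAction.orbit G (x i))).card = k ^ 2 - k + 1 := by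
    rw [← h.orbc i, Nat.card_eq_fintype_card, Fintype.card_subtype]
  have h1 := Finset.card_le_card hsub
  rw [hoc, hcP, h.v_eq] at h1
  have hdk' : d = k := by
    by_contra hne
    have h3 : d ≤ k - 1 := by omega
    have h4 : d * (d - 1) ≤ (k - 1) * (k - 1) := Nat.mul_le_mul h3 (by omega)
    have h5 : (k - 1) * (k - 1) < k * (k - 1) :=
      Nat.mul_lt_mul_of_pos_right (by have := h.k3; omega) (by have := h.k3; omega)
    omega
  subst hdk'
  rw [← h.v_eq] at hcP hcL
  refine ⟨hb, ha, hcP, hcL, ?_⟩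
  have heq := Finset.eq_of_subset_of_card_le hsub (by rw [hoc, hcP])
  intro y
  rw [← heq, Finset.mem_filter]
  simp

lemma disj (h : THOrb P L G k p0 x) (i j : ι) (hij : i ≠ j) :
    Disjoint (MulAction.stabilizer G (x i)) (MulAction.stabilizer G (x j)) := by
  have hni := h.qr.stab_normal (x i)
  have hnj := h.qr.stab_normal (x j)
  rw [disjoint_iff]
  by_contra hne
  set N' : Subgroup G := MulAction.stabilizer G (x i) ⊓ MulAction.stabilizer G (x j) with hN'
  have hN'n : N'.Normal := Subgroup.normal_inf_normal _ _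
  have hxi : x i ∈ fixP P N' := by
    rw [mem_fixP]; intro g hg; exact hg.1
  have hxj : x j ∈ fixP P N' := by
    rw [mem_fixP]; intro g hg; exact hg.2
  obtain ⟨d, hd2, hdk, -, -, hcP, -⟩ := h.qr.lemmaF' h.ho h.hG N' hne hxi
  obtain ⟨-, -, hc, -, hiff⟩ := h.main i
  have hsub : fixP P (MulAction.stabilizer G (x i)) ⊆ fixP P N' := by
    intro y hy
    rw [mem_fixP] at hy ⊢
    intro g hg; exact hy g hg.1
  have heq := Finset.eq_of_subset_of_card_le hsub (by
    rw [hc, hcP, h.v_eq]
    have : d * (d - 1) ≤ k * (k - 1) := Nat.mul_le_mul hdk (by omega)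
    omega)
  rw [← heq, hiff] at hxj
  exact h.sep i j hij hxj

lemma exists_mul (h : THOrb P L G k p0 x) {i j : ι} (hij : i ≠ j) (g : G) :
    ∃ a ∈ MulAction.stabilizer G (x i), ∃ b ∈ MulAction.stabilizer G (x j), a * b = g := by
  have hcomp := Subgroup.isComplement'_of_card_mul_and_disjoint
    (by rw [h.st, h.st, h.hG]; ring) (h.disj i j hij)
  obtain ⟨⟨a, b⟩, hab, -⟩ := hcomp.existsUnique g
  exact ⟨a, a.2, b, b.2, hab⟩

lemma central (h : THOrb P L G k p0 x) (i : ι) (a : G) (ha : a ∈ MulAction.stabilizer G (x i))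
    (g : G) : a * g = g * a := by
  have hni := h.qr.stab_normal (x i)
  have hc : 2 < Fintype.card ι := by rw [h.cardI]; have := h.k3; omega
  obtain ⟨j, l, hj, hl, hjl⟩ : ∃ j l : ι, i ≠ j ∧ i ≠ l ∧ j ≠ l := by
    have h1 : 1 < (Finset.univ.erase i).card := by
      rw [Finset.card_erase_of_mem (Finset.mem_univ _), Finset.card_univ]; omega
    obtain ⟨j, hj, l, hl, hjl⟩ := Finset.one_lt_card.mp h1
    exact ⟨j, l, (Finset.ne_of_mem_erase hj).symm, (Finset.ne_of_mem_erase hl).symm, hjl⟩
  have hnj := h.qr.stab_normal (x j)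
  have hnl := h.qr.stab_normal (x l)
  obtain ⟨b, hb, c, hc', rfl⟩ := h.exists_mul hjl g
  have h1 : a * b = b * a := Subgroup.commute_of_normal_of_disjoint _ _ hni hnj (h.disj i j hj) a b ha hb
  have h2 : a * c = c * a := Subgroup.commute_of_normal_of_disjoint _ _ hni hnl (h.disj i l hl) a c ha hc'
  rw [← mul_assoc, h1, mul_assoc, h2, mul_assoc]

lemma exists_pair (h : THOrb P L G k p0 x) : ∃ i j : ι, i ≠ j := by
  have hc : 1 < Fintype.card ι := by rw [h.cardI]; have := h.k3; omega
  exact Fintype.exists_pair_of_one_lt_card hc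

lemma comm (h : THOrb P L G k p0 x) (g g' : G) : g * g' = g' * g := by
  obtain ⟨i, j, hij⟩ := h.exists_pair
  obtain ⟨b, hb, c, hc', rfl⟩ := h.exists_mul hij g
  rw [mul_assoc, h.central j c hc' g', ← mul_assoc, h.central i b hb g', mul_assoc]

lemma fixL_disj (h : THOrb P L G k p0 x) {i j : ι} (hij : i ≠ j) {l : L}
    (hi : l ∈ fixL L (MulAction.stabilizer G (x i))) (hj : l ∈ fixL L (MulAction.stabilizer G (x j))) :
    False := by
  apply h.qr.nofixL
  refine ⟨l, fun g => ?_⟩
  obtain ⟨b, hb, c, hc', rfl⟩ := h.exists_mul hij g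
  rw [mul_smul, mem_fixL.mp hj c hc', mem_fixL.mp hi b hb]

/-- lines of `ℱ j` miss the orbit of `x i` -/
lemma miss (h : THOrb P L G k p0 x) {i j : ι} (hij : i ≠ j) {l : L}
    (hj : l ∈ fixL L (MulAction.stabilizer G (x j))) {y : P} (hy : y ∈ MulAction.orbit G (x i)) :
    y ∉ l := by
  intro hyl
  obtain ⟨g, hg⟩ := h.qr.not_collinear y l
  apply hg
  obtain ⟨b, hb, c, hc', rfl⟩ := h.exists_mul hij.symm g
  have hcy : c • y = y := by
    have := ((h.main i).2.2.2.2 y).mpr hy
    exact mem_fixP.mp this c hc'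
  rw [mul_smul, hcy]
  have := (h.qr.inc b y l).mp hyl
  rwa [mem_fixL.mp hj b hb] at this

lemma atmost (h : THOrb P L G k p0 x) (i : ι) {l : L}
    (hl : l ∉ fixL L (MulAction.stabilizer G (x i))) {y z : P}
    (hy : y ∈ MulAction.orbit G (x i)) (hz : z ∈ MulAction.orbit G (x i)) (hyl : y ∈ l)
    (hzl : z ∈ l) : y = z := by
  by_contra hne
  apply hl
  have hiff := (h.main i).2.2.2.2
  exact (h.qr.closed (MulAction.stabilizer G (x i))).c1 y ((hiff y).mpr hy) z ((hiff z).mpr hz) hne l
    hyl hzl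

lemma cardL (h : THOrb P L G k p0 x) :
    Fintype.card L = (k ^ 2 - k + 1) * (k ^ 2 - k + 1) + 2 * k * (k ^ 2 - k + 1) := by
  rw [card_lines P L, h.ho]
  have hvz : ((k ^ 2 - k + 1 : ℕ) : ℤ) = (k : ℤ) ^ 2 - k + 1 := by push_cast [Nat.cast_sub h.kk]; ring
  zify
  rw [Nat.cast_sub h.kk]
  push_cast
  ring

lemma card_biU (h : THOrb P L G k p0 x) :
    (Finset.univ.biUnion (fun i : ι => fixL L (MulAction.stabilizer G (x i)))).card =
      2 * k * (k ^ 2 - k + 1) := by
  rw [Finset.card_biUnion]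
  · rw [Finset.sum_congr rfl (fun i _ => (h.main i).2.2.2.1), Finset.sum_const, Finset.card_univ,
      h.cardI, smul_eq_mul]
  · intro i _ j _ hij
    change Disjoint _ _
    rw [Finset.disjoint_left]
    intro l hl hl'
    exact h.fixL_disj hij hl hl'

lemma exists_line (h : THOrb P L G k p0 x) :
    ∃ l : L, ∀ i, l ∉ fixL L (MulAction.stabilizer G (x i)) := by
  have h1 : (Finset.univ.biUnion (fun i : ι => fixL L (MulAction.stabilizer G (x i)))).card <
      (Finset.univ : Finset L).card := by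
    rw [h.card_biU, Finset.card_univ, h.cardL]
    have := h.v1
    have : 0 < (k ^ 2 - k + 1) * (k ^ 2 - k + 1) := by positivity
    omega
  obtain ⟨l, -, hl⟩ := Finset.exists_mem_notMem_of_card_lt_card h1
  refine ⟨l, fun i hi => hl ?_⟩
  rw [Finset.mem_biUnion]
  exact ⟨i, Finset.mem_univ _, hi⟩

lemma exists_point (h : THOrb P L G k p0 x) {l : L}
    (hl : ∀ i, l ∉ fixL L (MulAction.stabilizer G (x i))) (i : ι) :
    ∃ y ∈ MulAction.orbit G (x i), y ∈ l := by
  obtain ⟨hb, ha, hcP, hcL, hiff⟩ := h.main i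
  set A : Finset L := (fixP P (MulAction.stabilizer G (x i))).biUnion
    (fun y => Finset.univ.filter (fun m : L => y ∈ m ∧ m ∉ fixL L (MulAction.stabilizer G (x i)))) with hA
  set B : Finset L := Finset.univ.biUnion (fun i : ι => fixL L (MulAction.stabilizer G (x i))) with hB
  have hAc : A.card = (k ^ 2 - k + 1) * (k ^ 2 - k + 1) := by
    rw [hA, Finset.card_biUnion]
    · have h1 : ∀ y ∈ fixP P (MulAction.stabilizer G (x i)),
          (Finset.univ.filter (fun m : L => y ∈ m ∧ m ∉ fixL L (MulAction.stabilizer G (x i)))).card =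
            k ^ 2 - k + 1 := by
        intro y hy
        have h2 : (Finset.univ.filter (fun m : L => y ∈ m ∧
            m ∉ fixL L (MulAction.stabilizer G (x i)))) =
            (Finset.univ.filter (fun m : L => y ∈ m)) \
              ((fixL L (MulAction.stabilizer G (x i))).filter (fun m => y ∈ m)) := by
          ext m
          simp only [Finset.mem_filter, Finset.mem_univ, true_and, Finset.mem_sdiff]
          tauto
        rw [h2, Finset.card_sdiff_of_subset]
        · rw [card_lines_through, h.ho]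
          have h3 := ha y hy
          unfold aa at h3
          rw [h3]
          have := h.kk
          omega
        · intro m hm
          rw [Finset.mem_filter] at hm ⊢
          exact ⟨Finset.mem_univ _, hm.2⟩
      rw [Finset.sum_congr rfl h1, Finset.sum_const, hcP, smul_eq_mul]
    · intro y hy z hz hyz
      change Disjoint _ _
      rw [Finset.disjoint_left]
      intro m hm hm'
      rw [Finset.mem_filter] at hm hm'
      rw [Finset.mem_coe, hiff] at hy hz
      exact hyz (h.atmost i hm.2.2 hy hz hm.2.1 hm'.2.1)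
  have hdis : Disjoint A B := by
    rw [Finset.disjoint_left]
    intro m hm hm'
    rw [hA, Finset.mem_biUnion] at hm
    obtain ⟨y, hy, hym⟩ := hm
    rw [Finset.mem_filter] at hym
    rw [hB, Finset.mem_biUnion] at hm'
    obtain ⟨j, -, hj⟩ := hm'
    by_cases hij : i = j
    · subst hij; exact hym.2.2 hj
    · rw [hiff] at hy
      exact h.miss hij hj hy hym.2.1
  have hun : A ∪ B = Finset.univ := by
    apply Finset.eq_univ_of_card
    rw [Finset.card_union_of_disjoint hdis, hAc, hB, h.card_biU, h.cardL]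
  have hlm : l ∈ A ∪ B := by rw [hun]; exact Finset.mem_univ _
  rw [Finset.mem_union] at hlm
  rcases hlm with hlA | hlB
  · rw [hA, Finset.mem_biUnion] at hlA
    obtain ⟨y, hy, hyl⟩ := hlA
    rw [Finset.mem_filter] at hyl
    rw [hiff] at hy
    exact ⟨y, hy, hyl.2.1⟩
  · rw [hB, Finset.mem_biUnion] at hlB
    obtain ⟨j, -, hj⟩ := hlB
    exact absurd hj (hl j)

lemma mem_stab_of_fix (h : THOrb P L G k p0 x) {i : ι} {y : P} (hy : y ∈ MulAction.orbit G (x i))
    {g : G} (hg : g • y = y) : g ∈ MulAction.stabilizer G (x i) := by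
  rw [MulAction.mem_stabilizer_iff]
  exact h.qr.qr g y (x i) (MulAction.mem_orbit_symm.mp hy) hg

lemma smul_orbit {y z : P} (g : G) (hz : z ∈ MulAction.orbit G y) : g • z ∈ MulAction.orbit G y := by
  obtain ⟨a, rfl⟩ := hz
  exact ⟨g * a, by simp [mul_smul]⟩

lemma orbit_unique (h : THOrb P L G k p0 x) {i j : ι} {y : P} (hi : y ∈ MulAction.orbit G (x i))
    (hj : y ∈ MulAction.orbit G (x j)) : i = j := by
  by_contra hij
  apply h.sep i j hij
  rw [MulAction.mem_orbit_symm] at hj
  rw [← MulAction.orbit_eq_iff] at hi hj ⊢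
  rw [hj, hi]

lemma orbit_unique0 (h : THOrb P L G k p0 x) {i : ι} {y : P} (hi : y ∈ MulAction.orbit G (x i))
    (hj : y ∈ MulAction.orbit G p0) : False := by
  apply h.sep0 i
  rw [MulAction.mem_orbit_symm] at hi
  rw [← MulAction.orbit_eq_iff] at hi hj ⊢
  rw [hi, hj]

theorem false (h : THOrb P L G k p0 x) : False := by
  obtain ⟨l, hl⟩ := h.exists_line
  choose y hyo hyl using h.exists_point hl
  have hk3 := h.k3
  -- trivial stabilizer of l
  have hstab : ∀ g : G, g • l = l → g = 1 := by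
    intro g hg
    obtain ⟨i, j, hij⟩ := h.exists_pair
    have hfix : ∀ i, g ∈ MulAction.stabilizer G (x i) := by
      intro i
      have h1 : g • y i ∈ l := by
        have := (h.qr.inc g (y i) l).mp (hyl i)
        rwa [hg] at this
      have h2 : g • y i = y i := h.atmost i (hl i) (smul_orbit g (hyo i)) (hyo i) h1 (hyl i)
      exact h.mem_stab_of_fix (hyo i) h2
    exact Subgroup.disjoint_def.mp (h.disj i j hij) (hfix i) (hfix j)
  have hp0inj : ∀ a b : G, a • p0 = b • p0 → a = b := by
    intro a b hab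
    have h1 : b⁻¹ * a ∈ MulAction.stabilizer G p0 := by
      rw [MulAction.mem_stabilizer_iff, mul_smul, hab, inv_smul_smul]
    rw [h.st0, Subgroup.mem_bot, inv_mul_eq_one] at h1
    exact h1.symm
  set D : Finset G := Finset.univ.filter (fun g => g • p0 ∈ l) with hD
  have hDmem : ∀ g, g ∈ D ↔ g • p0 ∈ l := by intro g; rw [hD]; simp
  have hcardD : D.card = (k - 1) ^ 2 := by
    have h1 : Finset.univ.filter (fun z : P => z ∈ l) =
        D.image (fun g => g • p0) ∪ Finset.univ.image y := by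
      ext z
      simp only [Finset.mem_filter, Finset.mem_univ, true_and, Finset.mem_union, Finset.mem_image]
      constructor
      · intro hz
        rcases h.cover z with ⟨g, hg⟩ | ⟨i, hi⟩
        · left
          refine ⟨g, ?_, hg⟩
          rw [hDmem]
          have : g • p0 = z := hg
          rwa [this]
        · right
          exact ⟨i, h.atmost i (hl i) (hyo i) hi (hyl i) hz⟩
      · rintro (⟨g, hg, rfl⟩ | ⟨i, rfl⟩)
        · exact (hDmem g).mp hg
        · exact hyl i
    have h2 := congrArg Finset.card h1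
    rw [card_points_on, h.ho, Finset.card_union_of_disjoint, Finset.card_image_of_injective,
      Finset.card_image_of_injective, Finset.card_univ, h.cardI] at h2
    · obtain ⟨m, rfl⟩ : ∃ m, k = m + 1 := ⟨k - 1, by omega⟩
      simp only [Nat.add_sub_cancel]
      nlinarith
    · intro i j hij
      exact h.orbit_unique (hyo i) (by rw [hij]; exact hyo j)
    · intro a b hab
      exact hp0inj a b hab
    · rw [Finset.disjoint_left]
      intro z hz hz'
      rw [Finset.mem_image] at hz hz'
      obtain ⟨g, -, rfl⟩ := hz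
      obtain ⟨i, -, hi⟩ := hz'
      exact h.orbit_unique0 (hyo i) (by rw [hi]; exact ⟨g, rfl⟩)
  have hlne : ∀ g : G, g ≠ 1 → g⁻¹ • l ≠ l := by
    intro g hg he
    exact hg (inv_eq_one.mp (hstab _ he))
  refine false_of_comm (N := fun i => MulAction.stabilizer G (x i)) (D := D) h.comm h.k3 h.cardI h.st
    h.hG h.disj hcardD ?_ ?_
  · rintro g hg1 ⟨i, hi⟩ a ha b hb hab
    rw [hDmem] at ha hb
    have hab' : a = g * b := by rw [← hab]; group
    rw [hab', mul_smul] at ha
    -- z = b • p0 ∈ l ∩ g⁻¹ • l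
    have h1 : b • p0 ∈ g⁻¹ • l := by
      have := (h.qr.inc g⁻¹ (g • b • p0) l).mp ha
      rwa [inv_smul_smul] at this
    have hgy : g⁻¹ • y i = y i := by
      have h3 := ((h.main i).2.2.2.2 (y i)).mpr (hyo i)
      exact mem_fixP.mp h3 g⁻¹ (Subgroup.inv_mem _ hi)
    have h2 : y i ∈ g⁻¹ • l := by
      have := (h.qr.inc g⁻¹ (y i) l).mp (hyl i)
      rwa [hgy] at this
    have h3 : b • p0 = y i := point_eq (hlne g hg1) h1 h2 hb (hyl i)
    exact h.orbit_unique0 (hyo i) (by rw [← h3]; exact ⟨b, rfl⟩)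
  · intro g hg1 hgi
    have hne := hlne g hg1
    set z : P := meet P (g⁻¹ • l) l with hz
    have hz1 : z ∈ g⁻¹ • l := meet_mem_left hne
    have hz2 : z ∈ l := meet_mem_right hne
    have hgz : g • z ∈ l := by
      have := (h.qr.inc g z (g⁻¹ • l)).mp hz1
      rwa [smul_inv_smul] at this
    have hzp : z ∈ MulAction.orbit G p0 := by
      rcases h.cover z with hzo | ⟨i, hi⟩
      · exact hzo
      · exfalso
        have h2 : g • z = z := h.atmost i (hl i) (smul_orbit g hi) hi hgz hz2
        exact hgi i (h.mem_stab_of_fix hi h2)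
    obtain ⟨b, hb⟩ := hzp
    have hb' : b • p0 = z := hb
    rw [Finset.card_eq_one]
    refine ⟨(g * b, b), ?_⟩
    ext ⟨a', b'⟩
    rw [Finset.mem_filter, Finset.mem_product, Finset.mem_singleton, hDmem, hDmem, Prod.mk.injEq]
    constructor
    · rintro ⟨⟨h1, h2⟩, h3⟩
      simp only at h1 h2 h3
      have ha' : a' = g * b' := by rw [← h3]; group
      rw [ha', mul_smul] at h1
      have h4 : b' • p0 ∈ g⁻¹ • l := by
        have := (h.qr.inc g⁻¹ (g • b' • p0) l).mp h1
        rwa [inv_smul_smul] at this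
      have h5 : b' • p0 = z := point_eq hne h4 hz1 h2 hz2
      have h6 : b' = b := hp0inj _ _ (by rw [h5, hb'])
      exact ⟨by rw [ha', h6], h6⟩
    · rintro ⟨rfl, rfl⟩
      refine ⟨⟨?_, ?_⟩, ?_⟩
      · simp only; rw [mul_smul, hb']; exact hgz
      · simp only; rw [hb']; exact hz2
      · simp

end THOrb

end Pool.Agent.U113.TH
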